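import Pool.Agent.D0H21.LR.Span

/-!
# Odd distributions: the values at the fractions with exact denominator `q`, and at all fractions with denominator `q`
-/

set_option autoImplicit false

open Finset

namespace Pool.Agent.D0H21.LR

open DirichletCharacter

/-- the Euler factors at the prime factors of the modulus do not vanish -/
def Reg {q : ℕ} (χ : DirichletCharacter ℂ q) : Prop :=
  ∀ p : ℕ, p.Prime → p ∣ q → χ.primitiveCharacter (p : ZMod χ.conductor) ≠ 1

lemma fourier_zero {v : ℚ → ℂ} (hv : OddDist v) {q : ℕ} (hq : 0 < q) (χ : DirichletCharacter ℂ q) (h : ¬ Reg χ) :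
    HH v q χ = 0 := by
  have : NeZero q := ⟨hq.ne'⟩
  unfold Reg at h
  push Not at h
  obtain ⟨p, hp, hpq, h1⟩ := h
  have hf0 : 0 < χ.conductor := Nat.pos_of_ne_zero (conductor_ne_zero χ)
  have hfq := χ.conductor_dvd_level
  have hqf : q = χ.conductor * (q / χ.conductor) := (Nat.mul_div_cancel' hfq).symm
  have hpos : 0 < q / χ.conductor := Nat.div_pos (Nat.le_of_dvd hq hfq) hf0
  have hc := chain hv (q / χ.conductor) hpos χ.conductor q hf0 hqf hfq χ.primitiveCharacter
  rw [changeLevel_primitiveCharacter] at hc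
  rw [hc]
  have hpf : ¬ p ∣ χ.conductor := by
    intro h2
    have h3 : χ.primitiveCharacter (p : ZMod χ.conductor) = 0 := by
      refine val_zero _ ?_
      intro h4
      exact hp.one_lt.ne' (Nat.Coprime.eq_one_of_dvd h4 h2)
    rw [h3] at h1
    exact zero_ne_one h1
  have hpq' : p ∣ q / χ.conductor := by
    rw [hqf] at hpq
    rcases (Nat.Prime.dvd_mul hp).mp hpq with h2 | h2
    · exact absurd h2 hpf
    · exact h2
  rw [Finset.prod_eq_zero (i := p), zero_mul]
  · rw [Nat.mem_primeFactors]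
    exact ⟨hp, hpq', hpos.ne'⟩
  · rw [MulChar.inv_apply_eq_inv', h1, inv_one, sub_self]

lemma fourier_reg {v : ℚ → ℂ} (hv : OddDist v) {q : ℕ} (hq : 0 < q) (χ : DirichletCharacter ℂ q) (h : Reg χ)
    (h0 : HH v q χ = 0) : HH v χ.conductor χ.primitiveCharacter = 0 := by
  have : NeZero q := ⟨hq.ne'⟩
  have hf0 : 0 < χ.conductor := Nat.pos_of_ne_zero (conductor_ne_zero χ)
  have hfq := χ.conductor_dvd_level
  have hqf : q = χ.conductor * (q / χ.conductor) := (Nat.mul_div_cancel' hfq).symm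
  have hpos : 0 < q / χ.conductor := Nat.div_pos (Nat.le_of_dvd hq hfq) hf0
  have hc := chain hv (q / χ.conductor) hpos χ.conductor q hf0 hqf hfq χ.primitiveCharacter
  rw [changeLevel_primitiveCharacter, h0] at hc
  rcases mul_eq_zero.mp hc.symm with h1 | h1
  · exfalso
    rw [Finset.prod_eq_zero_iff] at h1
    obtain ⟨p, hp, hp1⟩ := h1
    rw [Nat.mem_primeFactors] at hp
    rw [MulChar.inv_apply_eq_inv', sub_eq_zero, eq_comm, inv_eq_one] at hp1
    exact h p hp.1 (hp.2.1.trans (Nat.div_dvd_of_dvd hfq)) hp1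
  · exact h1

lemma vanish_units {v : ℚ → ℂ} (hv : OddDist v) {q : ℕ} (hq : 0 < q)
    (h : ∀ χ : DirichletCharacter ℂ q, χ.Odd → Reg χ → HH v q χ = 0) {b : ℕ} (hbq : b < q) (hb : Nat.Coprime b q) :
    v ((b : ℚ) / q) = 0 := by
  refine inversion hq (fun χ => ?_) hbq hb
  rcases χ.even_or_odd with h1 | h1
  · exact HH_even hv hq χ h1
  · by_cases h2 : Reg χ
    · exact h χ h1 h2
    · exact fourier_zero hv hq χ h2

lemma parity {q : ℕ} (χ : DirichletCharacter ℂ q) (h : χ.Even) : χ.primitiveCharacter.Even := by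
  have h1 : IsCoprime (-1 : ℤ) q := by
    rw [IsCoprime.neg_left_iff]
    exact isCoprime_one_left
  have h2 := χ.primitiveCharacter_apply_of_isCoprime h1
  push_cast at h2
  unfold DirichletCharacter.Even at h ⊢
  rw [h2, h]

lemma vanish_every {v : ℚ → ℂ} (hv : OddDist v) {q : ℕ} (hq : 0 < q)
    (hu : ∀ b : ℕ, b < q → Nat.Coprime b q → v ((b : ℚ) / q) = 0)
    (h : ∀ χ : DirichletCharacter ℂ q, χ.Odd → ¬ Reg χ → HH v χ.conductor χ.primitiveCharacter = 0) {a : ℕ} (ha : a < q) :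
    v ((a : ℚ) / q) = 0 := by
  have : NeZero q := ⟨hq.ne'⟩
  have h1 : ∀ χ : DirichletCharacter ℂ q, HH v χ.conductor χ.primitiveCharacter = 0 := by
    intro χ
    rcases χ.even_or_odd with h2 | h2
    · exact HH_even hv (Nat.pos_of_ne_zero (conductor_ne_zero χ)) _ (parity χ h2)
    · by_cases h3 : Reg χ
      · refine fourier_reg hv hq χ h3 ?_
        unfold HH
        refine Finset.sum_eq_zero fun b hb => ?_
        rw [mem_range] at hb
        by_cases h4 : Nat.Coprime b q
        · rw [hu b hb h4, mul_zero]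
        · rw [val_zero _ h4, zero_mul]
      · exact h χ h2 h3
  have h2 : ∀ d : ℕ, 0 < d → d ∣ q → ∀ ψ : DirichletCharacter ℂ d, HH v d ψ = 0 := by
    intro d hd hdq ψ
    have : NeZero d := ⟨hd.ne'⟩
    obtain ⟨χ, hχ⟩ : ∃ χ, χ = changeLevel hdq ψ := ⟨_, rfl⟩
    have hf0 : 0 < χ.conductor := Nat.pos_of_ne_zero (conductor_ne_zero χ)
    have hfd : χ.conductor ∣ d := by
      rw [hχ, conductor_changeLevel]
      exact ψ.conductor_dvd_level
    have hψ : ψ = changeLevel hfd χ.primitiveCharacter := by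
      apply changeLevel_injective hdq
      rw [← changeLevel_trans, changeLevel_primitiveCharacter, hχ]
    have hdf : d = χ.conductor * (d / χ.conductor) := (Nat.mul_div_cancel' hfd).symm
    have hpos : 0 < d / χ.conductor := Nat.div_pos (Nat.le_of_dvd hd hfd) hf0
    have hc := chain hv (d / χ.conductor) hpos χ.conductor d hf0 hdf hfd χ.primitiveCharacter
    rw [← hψ, h1 χ, mul_zero] at hc
    exact hc
  have hg : 0 < Nat.gcd a q := Nat.gcd_pos_of_pos_right _ hq
  obtain ⟨b, hb⟩ := Nat.gcd_dvd_left a q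
  obtain ⟨d, hd⟩ := Nat.gcd_dvd_right a q
  obtain ⟨c, hc⟩ : ∃ c, c = Nat.gcd a q := ⟨_, rfl⟩
  rw [← hc] at hb hd hg
  have hd0 : 0 < d := by
    rcases Nat.eq_zero_or_pos d with h0 | h0
    · rw [h0, mul_zero] at hd
      omega
    · exact h0
  have hbd : Nat.Coprime b d := by
    have h3 : Nat.gcd (c * b) (c * d) = c := by rw [← hb, ← hd, hc]
    rw [Nat.gcd_mul_left] at h3
    exact Nat.eq_of_mul_eq_mul_left hg (by rw [h3, mul_one])
  have hlt : b < d := by
    have h3 : c * b < c * d := by rw [← hb, ← hd]; exact ha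
    exact Nat.lt_of_mul_lt_mul_left h3
  have h4 : (a : ℚ) / q = (b : ℚ) / d := by
    rw [hb, hd]
    push_cast
    have hc' : (c : ℚ) ≠ 0 := by positivity
    have hd' : (d : ℚ) ≠ 0 := by positivity
    field_simp
  rw [h4]
  exact inversion hd0 (h2 d hd0 ⟨c, by rw [mul_comm]; exact hd⟩) hlt hbd

/-- Selection for the fractions with exact denominator `q`. -/
theorem select_units {q : ℕ} (hq : 0 < q) : ∃ T : Finset ℚ,
    T ⊆ ((range q).filter fun a => Nat.Coprime a q).image (fun a : ℕ => (a : ℚ) / q) ∧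
    T.card ≤ Nat.card {χ : DirichletCharacter ℂ q // χ.Odd ∧ Reg χ} ∧
    ∀ (U : Type) [AddCommGroup U] (g : ℚ → U), TF U → OddDist g → (∀ t ∈ T, g t = 0) →
      ∀ b : ℕ, b < q → Nat.Coprime b q → g ((b : ℚ) / q) = 0 := by
  classical
  have : NeZero q := ⟨hq.ne'⟩
  obtain ⟨T, hT1, hT2, hT3⟩ := select (VV ∅) (((range q).filter fun a => Nat.Coprime a q).image (fun a : ℕ => (a : ℚ) / q))
    (ι := {χ : DirichletCharacter ℂ q // χ.Odd ∧ Reg χ}) (fun χ => HL q χ.1) (by
      intro v hv h0 a ha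
      rw [mem_image] at ha
      obtain ⟨b, hb, rfl⟩ := ha
      rw [mem_filter, mem_range] at hb
      exact vanish_units hv.1 hq (fun χ h1 h2 => h0 ⟨χ, h1, h2⟩) hb.1 hb.2)
  refine ⟨T, hT1, by rwa [Nat.card_eq_fintype_card], ?_⟩
  intro U _ g hU hg h0 b hbq hb
  by_contra hne
  obtain ⟨ψ, hψ⟩ := exists_hom hU hne
  apply hψ
  refine hT3 (fun x => ψ (g x)) ⟨hg.comp ψ, fun z hz => absurd hz (Set.notMem_empty z)⟩ (fun t ht => ?_) _
    (mem_image.mpr ⟨b, by rw [mem_filter, mem_range]; exact ⟨hbq, hb⟩, rfl⟩)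
  show ψ (g t) = 0
  rw [h0 t ht, map_zero]

/-- Selection for all fractions with denominator `q`. -/
theorem select_every {q : ℕ} (hq : 0 < q) : ∃ T : Finset ℚ,
    T ⊆ (range q).image (fun a : ℕ => (a : ℚ) / q) ∧
    T.card ≤ Nat.card {χ : DirichletCharacter ℂ q // χ.Odd ∧ ¬ Reg χ} ∧
    ∀ (U : Type) [AddCommGroup U] (g : ℚ → U), TF U → OddDist g → (∀ t ∈ T, g t = 0) →
      (∀ b : ℕ, b < q → Nat.Coprime b q → g ((b : ℚ) / q) = 0) → ∀ b : ℕ, b < q → g ((b : ℚ) / q) = 0 := by
  classical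
  have : NeZero q := ⟨hq.ne'⟩
  obtain ⟨T, hT1, hT2, hT3⟩ := select (VV {z | ∃ b : ℕ, b < q ∧ Nat.Coprime b q ∧ z = (b : ℚ) / q})
    ((range q).image (fun a : ℕ => (a : ℚ) / q))
    (ι := {χ : DirichletCharacter ℂ q // χ.Odd ∧ ¬ Reg χ}) (fun χ => HL χ.1.conductor χ.1.primitiveCharacter) (by
      intro v hv h0 a ha
      rw [mem_image] at ha
      obtain ⟨b, hb, rfl⟩ := ha
      rw [mem_range] at hb
      exact vanish_every hv.1 hq (fun b hbq hb => hv.2 _ ⟨b, hbq, hb, rfl⟩) (fun χ h1 h2 => h0 ⟨χ, h1, h2⟩) hb)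
  refine ⟨T, hT1, by rwa [Nat.card_eq_fintype_card], ?_⟩
  intro U _ g hU hg h0 hu b hbq
  by_contra hne
  obtain ⟨ψ, hψ⟩ := exists_hom hU hne
  apply hψ
  refine hT3 (fun x => ψ (g x)) ⟨hg.comp ψ, ?_⟩ (fun t ht => ?_) _ (mem_image.mpr ⟨b, mem_range.mpr hbq, rfl⟩)
  · rintro z ⟨c, hcq, hc, rfl⟩
    show ψ (g ((c : ℚ) / q)) = 0
    rw [hu c hcq hc, map_zero]
  · show ψ (g t) = 0
    rw [h0 t ht, map_zero]

/-- counting -/
lemma card_add {q : ℕ} (hq : 2 < q) : 2 * (Nat.card {χ : DirichletCharacter ℂ q // χ.Odd ∧ Reg χ} +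
    Nat.card {χ : DirichletCharacter ℂ q // χ.Odd ∧ ¬ Reg χ}) = Nat.totient q := by
  classical
  have : NeZero q := ⟨by omega⟩
  rw [← card_odd hq]
  congr 1
  rw [Nat.card_eq_fintype_card, Nat.card_eq_fintype_card, Nat.card_eq_fintype_card, Fintype.card_subtype,
    Fintype.card_subtype, Fintype.card_subtype, ← Finset.card_filter_add_card_filter_not
      (s := (univ : Finset (DirichletCharacter ℂ q)).filter fun χ => χ.Odd) (fun χ => Reg χ), Finset.filter_filter,
    Finset.filter_filter]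

lemma sep0 {Q : Type} [CommGroup Q] [Finite Q] {x : Q} (hx : x ≠ 1) : ∃ φ : Q →* ℂˣ, φ x ≠ 1 := by
  have : NeZero (Monoid.exponent Q) := ⟨Monoid.exponent_ne_zero_of_finite⟩
  exact CommGroup.exists_apply_ne_one_of_hasEnoughRootsOfUnity Q ℂ hx

/-- All odd characters are regular if and only if `-1` is a power of `p` modulo the part of `q` prime to `p`, for all `p`. -/
theorem reg_iff {q : ℕ} (hq : 2 < q) : (∀ χ : DirichletCharacter ℂ q, χ.Odd → Reg χ) ↔ OddDist.MinusOne q := by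
  have hq0 : 0 < q := by omega
  have : NeZero q := ⟨by omega⟩
  constructor
  · intro h p hp hpq
    by_contra hk
    push Not at hk
    have : Fact p.Prime := ⟨hp⟩
    obtain ⟨n, hn, hqn, hpm⟩ := OddDist.part p q hp hq0 hpq
    obtain ⟨m, hm⟩ : ∃ m, m = q / p ^ padicValNat p q := ⟨_, rfl⟩
    rw [← hm] at hk hqn hpm
    have hm0 : 0 < m := by
      rcases Nat.eq_zero_or_pos m with h0 | h0
      · rw [h0, zero_mul] at hqn
        omega
      · exact h0
    have : NeZero m := ⟨hm0.ne'⟩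
    have hmq : m ∣ q := by
      rw [hqn]
      exact dvd_mul_right _ _
    obtain ⟨u, hu⟩ : ∃ u : (ZMod m)ˣ, u = ZMod.unitOfCoprime p hpm := ⟨_, rfl⟩
    have hu' : (u : ZMod m) = p := by
      rw [hu, ZMod.coe_unitOfCoprime]
    have hnot : (-1 : (ZMod m)ˣ) ∉ Subgroup.zpowers u := by
      intro h1
      rw [← mem_powers_iff_mem_zpowers] at h1
      obtain ⟨k, hk1⟩ := h1
      apply hk k
      rw [← ZMod.natCast_eq_zero_iff]
      push_cast
      rw [← hu']
      have h2 := congrArg (fun x : (ZMod m)ˣ => (x : ZMod m)) hk1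
      simp only [Units.val_pow_eq_pow_val, Units.val_neg, Units.val_one] at h2
      rw [h2]
      ring
    have hne : (QuotientGroup.mk (-1 : (ZMod m)ˣ) : (ZMod m)ˣ ⧸ Subgroup.zpowers u) ≠ 1 := by
      rw [Ne, QuotientGroup.eq_one_iff]
      exact hnot
    obtain ⟨φ, hφ⟩ := sep0 hne
    obtain ⟨ψ, hψ⟩ : ∃ ψ : DirichletCharacter ℂ m,
      ψ = MulChar.ofUnitHom (φ.comp (QuotientGroup.mk' (Subgroup.zpowers u))) := ⟨_, rfl⟩
    have hval : ∀ x : (ZMod m)ˣ, ψ (x : ZMod m) = (φ (QuotientGroup.mk x) : ℂ) := by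
      intro x
      rw [hψ, MulChar.ofUnitHom_coe]
      rfl
    have hψp : ψ (p : ZMod m) = 1 := by
      rw [← hu', hval]
      have h1 : (QuotientGroup.mk u : (ZMod m)ˣ ⧸ Subgroup.zpowers u) = 1 :=
        (QuotientGroup.eq_one_iff u).mpr (Subgroup.mem_zpowers u)
      rw [h1, map_one, Units.val_one]
    have hψ1 : ψ.Odd := by
      rcases ψ.even_or_odd with h1 | h1
      · exfalso
        apply hφ
        have h2 := hval (-1)
        rw [Units.val_neg, Units.val_one] at h2
        unfold DirichletCharacter.Even at h1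
        rw [h1] at h2
        exact Units.ext h2.symm
      · exact h1
    obtain ⟨χ, hχ⟩ : ∃ χ, χ = changeLevel hmq ψ := ⟨_, rfl⟩
    have hodd : χ.Odd := by
      have h1 : IsCoprime (-1 : ℤ) q := by
        rw [IsCoprime.neg_left_iff]
        exact isCoprime_one_left
      have h2 := changeLevel_eq_cast_of_dvd' ψ hmq h1
      push_cast at h2
      unfold DirichletCharacter.Odd at hψ1 ⊢
      rw [hχ, h2, hψ1]
    refine h χ hodd p hp hpq ?_
    have h3 : χ ∈ subgroupOfPrimitiveMapToOne ℂ q p := by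
      rw [hχ]
      have h4 : IsCoprime (p : ℤ) m := Nat.isCoprime_iff_coprime.mpr hpm
      rw [mem_subgroupOfPrimitiveMapToOne_iff, ← Int.cast_natCast, primitiveCharacter_changeLevel_apply,
        primitiveCharacter_apply_of_isCoprime _ h4]
      push_cast
      exact hψp
    exact (mem_subgroupOfPrimitiveMapToOne_iff _ p).mp h3
  · intro h χ hodd p hp hpq h1
    have : Fact p.Prime := ⟨hp⟩
    obtain ⟨k, hk⟩ := h p hp hpq
    have hf0 : 0 < χ.conductor := Nat.pos_of_ne_zero (conductor_ne_zero χ)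
    have hpf : ¬ p ∣ χ.conductor := by
      intro h2
      have h3 : χ.primitiveCharacter (p : ZMod χ.conductor) = 0 := by
        refine val_zero _ ?_
        intro h4
        exact hp.one_lt.ne' (Nat.Coprime.eq_one_of_dvd h4 h2)
      rw [h3] at h1
      exact zero_ne_one h1
    have hfm : χ.conductor ∣ q / p ^ padicValNat p q := by
      have h2 := Nat.dvd_ordCompl_of_dvd_not_dvd χ.conductor_dvd_level hpf
      rwa [Nat.factorization_def q hp] at h2
    have h2 : ((p ^ k + 1 : ℕ) : ZMod χ.conductor) = 0 := (ZMod.natCast_eq_zero_iff _ _).mpr (hfm.trans hk)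
    push_cast at h2
    have h3 : (-1 : ZMod χ.conductor) = (p : ZMod χ.conductor) ^ k := by
      rw [eq_comm, ← add_eq_zero_iff_eq_neg]
      exact h2
    have h4 : χ.primitiveCharacter (-1) = 1 := by
      rw [h3, map_pow, h1, one_pow]
    have h5 : IsCoprime (-1 : ℤ) q := by
      rw [IsCoprime.neg_left_iff]
      exact isCoprime_one_left
    have h6 := χ.primitiveCharacter_apply_of_isCoprime h5
    push_cast at h6
    unfold DirichletCharacter.Odd at hodd
    rw [h4, hodd] at h6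
    norm_num at h6

end Pool.Agent.D0H21.LR
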