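import Pool.Agent.D0H21.LR.Deg
import Pool.Agent.D0H21.LR.Two

/-!
# The transcendence degrees and the number of regular odd characters
-/

set_option autoImplicit false

open Finset Cardinal

namespace Pool.Agent.D0H21.LR

/-- The transcendence degree of a field generated by a finite set. -/
lemma trdeg_adjoin_le' {K E : Type} [Field K] [Field E] [Algebra K E] (S : Finset E) :
    Algebra.trdeg K (IntermediateField.adjoin K (S : Set E)) ≤ (S.card : Cardinal) := by
  classical
  obtain ⟨F, hF⟩ : ∃ F, F = IntermediateField.adjoin K (S : Set E) := ⟨_, rfl⟩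
  rw [← hF]
  let s : Set F := {y | (y : E) ∈ S}
  have hmem : ∀ r ∈ Algebra.adjoin K (S : Set E), ∃ r' : F, r' ∈ Algebra.adjoin K s ∧ (r' : E) = r := by
    intro r hr
    induction hr using Algebra.adjoin_induction with
    | mem x hx =>
      have hxF : x ∈ F := by
        rw [hF]
        exact IntermediateField.subset_adjoin K _ hx
      exact ⟨⟨x, hxF⟩, Algebra.subset_adjoin hx, rfl⟩
    | algebraMap r => exact ⟨algebraMap K F r, Subalgebra.algebraMap_mem _ _, rfl⟩
    | add x y _ _ hx hy =>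
      obtain ⟨x', hx', rfl⟩ := hx
      obtain ⟨y', hy', rfl⟩ := hy
      exact ⟨x' + y', add_mem hx' hy', rfl⟩
    | mul x y _ _ hx hy =>
      obtain ⟨x', hx', rfl⟩ := hx
      obtain ⟨y', hy', rfl⟩ := hy
      exact ⟨x' * y', mul_mem hx' hy', rfl⟩
  have : Algebra.IsAlgebraic (Algebra.adjoin K s) F := by
    constructor
    intro y
    have hy2 : (y : E) ∈ IntermediateField.adjoin K (S : Set E) := by
      rw [← hF]
      exact y.2
    obtain ⟨r, hr, t, ht, hy⟩ := (IntermediateField.mem_adjoin_iff_div).1 hy2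
    obtain ⟨r', hr', rfl⟩ := hmem r hr
    obtain ⟨t', ht', rfl⟩ := hmem t ht
    have hy' : y = r' / t' := by
      apply Subtype.ext
      rw [hy]
      rfl
    by_cases h0 : t' = 0
    · rw [hy', h0, div_zero]
      exact isAlgebraic_zero
    · have h1 : IsAlgebraic (Algebra.adjoin K s) r' :=
        isAlgebraic_algebraMap (⟨r', hr'⟩ : Algebra.adjoin K s)
      have h2 : IsAlgebraic (Algebra.adjoin K s) t' :=
        isAlgebraic_algebraMap (⟨t', ht'⟩ : Algebra.adjoin K s)
      rw [hy', div_eq_mul_inv]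
      exact h1.mul h2.inv
  have h1 : Algebra.trdeg K F ≤ #s := Algebra.IsAlgebraic.trdeg_le_cardinalMk K s
  have h2 : #s ≤ S.card := by
    rw [← Cardinal.mk_coe_finset]
    refine Cardinal.mk_le_of_injective (f := fun y : s => (⟨((y : F) : E), y.2⟩ : S)) ?_
    intro a b hab
    apply Subtype.ext
    apply Subtype.ext
    exact congrArg (fun z : S => (z : E)) hab
  exact h1.trans h2

/-- adjoining finitely many elements -/
lemma trdeg_union (s : Set ℂ) (S : Finset ℂ) :
    Algebra.trdeg ℚ (IntermediateField.adjoin ℚ (s ∪ (S : Set ℂ))) ≤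
      Algebra.trdeg ℚ (IntermediateField.adjoin ℚ s) + (S.card : Cardinal) := by
  have h1 := IntermediateField.adjoin_adjoin_left ℚ s (S : Set ℂ)
  have h2 : Algebra.trdeg ℚ (IntermediateField.adjoin ℚ s) +
      Algebra.trdeg (IntermediateField.adjoin ℚ s)
        (IntermediateField.adjoin (IntermediateField.adjoin ℚ s) (S : Set ℂ)) =
      Algebra.trdeg ℚ (IntermediateField.adjoin (IntermediateField.adjoin ℚ s) (S : Set ℂ)) :=
    trdeg_add_eq ℚ (IntermediateField.adjoin ℚ s)
  have h3 := trdeg_adjoin_le' (K := IntermediateField.adjoin ℚ s) S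
  rw [← h1]
  calc Algebra.trdeg ℚ ((IntermediateField.adjoin (IntermediateField.adjoin ℚ s) (S : Set ℂ)).restrictScalars ℚ)
      = Algebra.trdeg ℚ (IntermediateField.adjoin (IntermediateField.adjoin ℚ s) (S : Set ℂ)) := rfl
    _ ≤ _ := by
      rw [← h2]
      gcongr

/-- the number of the odd characters modulo `q` with non-vanishing Euler factors at the prime factors of `q` -/
noncomputable def RR (q : ℕ) : ℕ := Nat.card {χ : DirichletCharacter ℂ q // χ.Odd ∧ Reg χ}

/-- the number of the other odd characters -/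
noncomputable def NR (q : ℕ) : ℕ := Nat.card {χ : DirichletCharacter ℂ q // χ.Odd ∧ ¬ Reg χ}

lemma pos_of_coprime {a q : ℕ} (hq : 2 < q) (h : Nat.Coprime a q) : 0 < a := by
  rcases Nat.eq_zero_or_pos a with rfl | h0
  · rw [Nat.coprime_zero_left] at h
    omega
  · exact h0

lemma gd_zero (L : IntermediateField ℚ ℂ) : gd L 0 = 0 := by
  unfold gd
  refine cls_eq_zero ?_
  rw [Int.fract_zero, add_zero, Rat.cast_one, Real.Gamma_one, Complex.ofReal_one]
  exact isAlgebraic_one

/-- The upper bound. -/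
theorem trdeg_le_RR {q : ℕ} (hq : 2 < q) :
    Algebra.trdeg ℚ (IntermediateField.adjoin ℚ (gens q)) ≤ ((1 + RR q : ℕ) : Cardinal) := by
  classical
  have hq0 : 0 < q := by omega
  obtain ⟨T, hT1, hT2, hT3⟩ := select_units hq0
  obtain ⟨s, hs⟩ : ∃ s : Finset ℂ, s = insert (Real.pi : ℂ) (T.image fun t : ℚ => Complex.Gamma (t : ℂ)) := ⟨_, rfl⟩
  have hscard : s.card ≤ 1 + RR q := by
    rw [hs, add_comm]
    exact (Finset.card_insert_le _ _).trans (Nat.add_le_add_right (Finset.card_image_le.trans hT2) 1)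
  refine le_trans ?_ ((trdeg_adjoin_le s).trans (by exact_mod_cast hscard))
  refine trdeg_le_of_alg _ _ ?_
  obtain ⟨L, hL⟩ : ∃ L, L = IntermediateField.adjoin ℚ (s : Set ℂ) := ⟨_, rfl⟩
  rw [← hL]
  have hsub : ∀ z ∈ s, z ∈ L := by
    intro z hz
    rw [hL]
    exact IntermediateField.subset_adjoin ℚ _ hz
  have hpi : (Real.pi : ℂ) ∈ L := hsub _ (by rw [hs]; exact Finset.mem_insert_self _ _)
  have hodd := gd_odd hpi
  have hv := hT3 (UQ L) (gd L) tf hodd (fun t ht => by
    have h1 := hT1 ht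
    rw [mem_image] at h1
    obtain ⟨a, ha, rfl⟩ := h1
    rw [mem_filter, mem_range] at ha
    rw [gd_zero_iff L (pos_of_coprime hq ha.2) hq0]
    have h2 : Complex.Gamma (a / q) ∈ L := by
      apply hsub
      rw [hs]
      refine Finset.mem_insert_of_mem (Finset.mem_image.mpr ⟨_, ht, ?_⟩)
      push_cast
      rfl
    exact isAlgebraic_algebraMap (⟨_, h2⟩ : L))
  intro z hz
  rcases hz with hz | ⟨a, ha1, haq, hac, rfl⟩
  · rw [Set.mem_singleton_iff] at hz
    rw [hz]
    exact isAlgebraic_algebraMap (⟨_, hpi⟩ : L)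
  · rw [← gd_zero_iff L (by omega) hq0]
    exact hv a (by omega) hac

/-- The lower bound in terms of the field with all numerators. -/
theorem trdeg_all_le {q : ℕ} (hq : 2 < q) :
    Algebra.trdeg ℚ (IntermediateField.adjoin ℚ (gensAll q)) ≤
      Algebra.trdeg ℚ (IntermediateField.adjoin ℚ (gens q)) + (NR q : Cardinal) := by
  classical
  have hq0 : 0 < q := by omega
  obtain ⟨T, hT1, hT2, hT3⟩ := select_every hq0
  obtain ⟨s, hs⟩ : ∃ s : Finset ℂ, s = T.image fun t : ℚ => Complex.Gamma (t : ℂ) := ⟨_, rfl⟩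
  have hscard : s.card ≤ NR q := by
    rw [hs]
    exact Finset.card_image_le.trans hT2
  refine le_trans ?_ ((trdeg_union (gens q) s).trans (by gcongr))
  refine trdeg_le_of_alg _ _ ?_
  obtain ⟨L, hL⟩ : ∃ L, L = IntermediateField.adjoin ℚ (gens q ∪ (s : Set ℂ)) := ⟨_, rfl⟩
  rw [← hL]
  have hsub : ∀ z ∈ gens q ∪ (s : Set ℂ), z ∈ L := by
    intro z hz
    rw [hL]
    exact IntermediateField.subset_adjoin ℚ _ hz
  have hpi : (Real.pi : ℂ) ∈ L := hsub _ (Or.inl (Or.inl rfl))
  have hodd := gd_odd hpi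
  have hv := hT3 (UQ L) (gd L) tf hodd (fun t ht => by
    have h1 := hT1 ht
    rw [mem_image] at h1
    obtain ⟨a, ha, rfl⟩ := h1
    rcases Nat.eq_zero_or_pos a with rfl | ha0
    · rw [Nat.cast_zero, zero_div]
      exact gd_zero L
    · rw [gd_zero_iff L ha0 hq0]
      have h2 : Complex.Gamma (a / q) ∈ L := by
        apply hsub
        right
        rw [hs]
        refine Finset.mem_coe.mpr (Finset.mem_image.mpr ⟨_, ht, ?_⟩)
        push_cast
        rfl
      exact isAlgebraic_algebraMap (⟨_, h2⟩ : L)) (fun b hbq hb => by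
    have hb0 := pos_of_coprime hq hb
    rw [gd_zero_iff L hb0 hq0]
    exact isAlgebraic_algebraMap (⟨_, hsub _ (Or.inl (Or.inr ⟨b, hb0, by omega, hb, rfl⟩))⟩ : L))
  intro z hz
  rcases hz with hz | ⟨a, ha1, haq, rfl⟩
  · rw [Set.mem_singleton_iff] at hz
    rw [hz]
    exact isAlgebraic_algebraMap (⟨_, hpi⟩ : L)
  · rw [← gd_zero_iff L (by omega) hq0]
    exact hv a (by omega)

theorem two_mul_RR {q : ℕ} (hq : 2 < q) : 2 * (RR q + NR q) = Nat.totient q := card_add hq

theorem NR_eq_zero_iff {q : ℕ} (hq : 2 < q) : NR q = 0 ↔ OddDist.MinusOne q := by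
  have : NeZero q := ⟨by omega⟩
  rw [← reg_iff hq]
  unfold NR
  rw [Nat.card_eq_zero]
  constructor
  · rintro (h | h) χ hχ
    · by_contra hr
      exact h.false ⟨χ, hχ, hr⟩
    · exact absurd h (by
        rw [not_infinite_iff_finite]
        exact Finite.of_injective _ Subtype.val_injective)
  · intro h
    left
    exact ⟨fun x => x.2.2 (h x.1 x.2.1)⟩

end Pool.Agent.D0H21.LR
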