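import Pool.Agent.D0H21.LR.Dist

/-!
# Fourier coefficients of odd distributions

Let `g` be a complex valued odd distribution. For a character `ψ` modulo `d` let `H d ψ = ∑_(a < d) ψ⁻¹(a) g(a / d)`. If `χ` is
the character modulo `d n` induced by `ψ` then `H (d n) χ = ∏_(p | n) (1 - ψ⁻¹(p)) H d ψ`.
-/

set_option autoImplicit false

open Finset

namespace Pool.Agent.D0H21.LR

open DirichletCharacter

/-- the Fourier coefficient -/
noncomputable def HH (g : ℚ → ℂ) (d : ℕ) (ψ : DirichletCharacter ℂ d) : ℂ :=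
  ∑ a ∈ range d, ψ⁻¹ (a : ZMod d) * g ((a : ℚ) / d)

lemma chg_val {d D : ℕ} (hd : d ∣ D) (ψ : DirichletCharacter ℂ d) (a : ℕ) :
    changeLevel hd ψ (a : ZMod D) = if Nat.Coprime a D then ψ (a : ZMod d) else 0 := by
  split_ifs with h
  · have h1 : IsCoprime (a : ℤ) D := Nat.isCoprime_iff_coprime.mpr h
    have := changeLevel_eq_cast_of_dvd' ψ hd h1
    push_cast at this
    exact this
  · refine MulChar.map_nonunit _ ?_
    rw [ZMod.isUnit_iff_coprime]
    exact h

lemma val_zero {d : ℕ} (ψ : DirichletCharacter ℂ d) {a : ℕ} (h : ¬ Nat.Coprime a d) : ψ (a : ZMod d) = 0 := by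
  refine MulChar.map_nonunit _ ?_
  rw [ZMod.isUnit_iff_coprime]
  exact h

/-- one more prime factor -/
lemma step {g : ℚ → ℂ} (h : OddDist g) {d p : ℕ} (hd : 0 < d) (hp : p.Prime) (ψ : DirichletCharacter ℂ d) :
    HH g (d * p) (changeLevel (dvd_mul_right d p) ψ) = (1 - ψ⁻¹ (p : ZMod d)) * HH g d ψ := by
  classical
  have hp0 := hp.pos
  have hA : ∑ a ∈ range (d * p), ψ⁻¹ (a : ZMod d) * g ((a : ℚ) / (d * p : ℕ)) = HH g d ψ := by
    have h1 : ∀ a ∈ range (d * p), a % d ∈ range d := fun a _ => by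
      rw [mem_range]
      exact Nat.mod_lt _ hd
    rw [← Finset.sum_fiberwise_of_maps_to h1]
    refine Finset.sum_congr rfl fun b hb => ?_
    rw [mem_range] at hb
    rw [← h.sum_class hd hp0 b, Finset.mul_sum]
    refine Finset.sum_congr ?_ ?_
    · ext a
      rw [mem_filter, mem_filter]
      refine and_congr_right fun _ => ?_
      unfold Nat.ModEq
      rw [Nat.mod_eq_of_lt hb]
    · intro a ha
      rw [mem_filter] at ha
      have h2 : (a : ZMod d) = (b : ZMod d) := (ZMod.natCast_eq_natCast_iff _ _ _).mpr ha.2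
      rw [h2]
  have hB : ∑ a ∈ (range (d * p)).filter (fun a => p ∣ a), ψ⁻¹ (a : ZMod d) * g ((a : ℚ) / (d * p : ℕ)) =
      ψ⁻¹ (p : ZMod d) * HH g d ψ := by
    unfold HH
    rw [Finset.mul_sum]
    symm
    refine Finset.sum_bij (fun a _ => p * a) ?_ ?_ ?_ ?_
    · intro a ha
      rw [mem_range] at ha
      rw [mem_filter, mem_range]
      refine ⟨?_, dvd_mul_right _ _⟩
      rw [mul_comm d p]
      exact Nat.mul_lt_mul_of_pos_left ha hp0
    · intro a _ b _ hab
      exact Nat.eq_of_mul_eq_mul_left hp0 hab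
    · intro a ha
      rw [mem_filter, mem_range] at ha
      obtain ⟨c, rfl⟩ := ha.2
      refine ⟨c, ?_, rfl⟩
      rw [mem_range]
      rw [mul_comm d p] at ha
      exact Nat.lt_of_mul_lt_mul_left ha.1
    · intro a _
      rw [Nat.cast_mul, map_mul, mul_assoc]
      congr 2
      congr 1
      push_cast
      have hp' : (p : ℚ) ≠ 0 := by positivity
      have hd' : (d : ℚ) ≠ 0 := by positivity
      field_simp
  have hC : HH g (d * p) (changeLevel (dvd_mul_right d p) ψ) =
      ∑ a ∈ (range (d * p)).filter (fun a => ¬ p ∣ a), ψ⁻¹ (a : ZMod d) * g ((a : ℚ) / (d * p : ℕ)) := by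
    unfold HH
    rw [Finset.sum_filter]
    refine Finset.sum_congr rfl fun a _ => ?_
    rw [← map_inv, chg_val]
    have hiff : Nat.Coprime a (d * p) ↔ Nat.Coprime a d ∧ ¬ p ∣ a := by
      rw [Nat.coprime_mul_iff_right, Nat.coprime_comm (n := a) (m := p), Nat.Prime.coprime_iff_not_dvd hp]
    by_cases h1 : Nat.Coprime a (d * p)
    · rw [if_pos h1, if_pos (hiff.mp h1).2]
    · rw [if_neg h1, zero_mul]
      split_ifs with h2
      · rfl
      · have h3 : ¬ Nat.Coprime a d := fun h4 => h1 (hiff.mpr ⟨h4, h2⟩)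
        rw [val_zero _ h3, zero_mul]
  rw [hC, sub_mul, one_mul, ← hB, ← hA, eq_sub_iff_add_eq]
  rw [add_comm]
  exact Finset.sum_filter_add_sum_filter_not _ _ _

/-- all prime factors -/
lemma chain {g : ℚ → ℂ} (h : OddDist g) : ∀ n : ℕ, 0 < n → ∀ (d D : ℕ) (_ : 0 < d) (_ : D = d * n) (hdD : d ∣ D)
    (ψ : DirichletCharacter ℂ d),
    HH g D (changeLevel hdD ψ) = (∏ p ∈ n.primeFactors, (1 - ψ⁻¹ (p : ZMod d))) * HH g d ψ := by
  intro n
  induction n using Nat.strong_induction_on with
  | _ n ih =>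
    intro hn d D hd hD hdD ψ
    by_cases hn1 : n = 1
    · subst hn1
      rw [mul_one] at hD
      subst hD
      simp [changeLevel_self]
    · obtain ⟨p, hp, hpn⟩ := Nat.exists_prime_and_dvd hn1
      obtain ⟨n', rfl⟩ := hpn
      have hn' : 0 < n' := Nat.pos_of_mul_pos_left hn
      have hlt : n' < p * n' := by
        have := hp.two_le
        nlinarith
      have hdp : d ∣ d * p := dvd_mul_right _ _
      have hD' : D = d * p * n' := by rw [hD, mul_assoc]
      have hdpD : d * p ∣ D := by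
        rw [hD']
        exact dvd_mul_right _ _
      have h1 := ih n' hlt hn' (d * p) D (Nat.mul_pos hd hp.pos) hD' hdpD (changeLevel hdp ψ)
      rw [← changeLevel_trans] at h1
      rw [h1, step h hd hp, ← mul_assoc]
      congr 1
      have h2 : (p * n').primeFactors = insert p (n'.primeFactors.erase p) := by
        rw [Nat.primeFactors_mul hp.ne_zero hn'.ne', Nat.Prime.primeFactors hp]
        ext x
        simp only [mem_union, mem_singleton, mem_insert, mem_erase]
        tauto
      have h3 : ∀ x ∈ n'.primeFactors, x ≠ p → (changeLevel hdp ψ)⁻¹ (x : ZMod (d * p)) = ψ⁻¹ (x : ZMod d) := by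
        intro x hx hxp
        have hxprime := Nat.prime_of_mem_primeFactors hx
        rw [← map_inv, chg_val]
        split_ifs with h4
        · rfl
        · rw [val_zero]
          intro h5
          apply h4
          exact Nat.Coprime.mul_right h5 ((Nat.coprime_primes hxprime hp).mpr hxp)
      have h4 : (changeLevel hdp ψ)⁻¹ (p : ZMod (d * p)) = 0 := by
        refine val_zero _ ?_
        intro h5
        have h6 := Nat.Coprime.eq_one_of_dvd h5 (dvd_mul_left _ _)
        exact hp.one_lt.ne' h6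
      have h5 : ∏ x ∈ n'.primeFactors, (1 - (changeLevel hdp ψ)⁻¹ (x : ZMod (d * p))) =
          ∏ x ∈ n'.primeFactors.erase p, (1 - ψ⁻¹ (x : ZMod d)) := by
        by_cases hpn' : p ∈ n'.primeFactors
        · rw [← Finset.mul_prod_erase _ _ hpn', h4, sub_zero, one_mul]
          refine Finset.prod_congr rfl fun x hx => ?_
          rw [mem_erase] at hx
          rw [h3 x hx.2 hx.1]
        · rw [Finset.erase_eq_of_notMem hpn']
          refine Finset.prod_congr rfl fun x hx => ?_
          rw [h3 x hx (fun h6 => hpn' (h6 ▸ hx))]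
      rw [h5, h2, Finset.prod_insert (Finset.notMem_erase _ _), mul_comm]

/-- parity -/
lemma HH_even {g : ℚ → ℂ} (h : OddDist g) {d : ℕ} (hd : 0 < d) (ψ : DirichletCharacter ℂ d) (he : ψ.Even) :
    HH g d ψ = 0 := by
  have : NeZero d := ⟨hd.ne'⟩
  have h1 : ∀ F : ℕ → ℂ, ∑ a ∈ range d, F a = ∑ u : ZMod d, F u.val := by
    intro F
    symm
    refine Finset.sum_bij (fun u _ => u.val) ?_ ?_ ?_ ?_
    · intro u _
      rw [mem_range]
      exact ZMod.val_lt u
    · intro u _ v _ huv
      exact ZMod.val_injective d huv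
    · intro a ha
      rw [mem_range] at ha
      exact ⟨(a : ZMod d), Finset.mem_univ _, ZMod.val_cast_of_lt ha⟩
    · intro u _
      rfl
  have h2 : HH g d ψ = ∑ u : ZMod d, ψ⁻¹ u * g ((u.val : ℚ) / d) := by
    unfold HH
    rw [h1 (fun a => ψ⁻¹ (a : ZMod d) * g ((a : ℚ) / d))]
    refine Finset.sum_congr rfl fun u _ => ?_
    rw [ZMod.natCast_zmod_val]
  have h3 : HH g d ψ = - HH g d ψ := by
    nth_rewrite 1 [h2]
    rw [← Equiv.sum_comp (Equiv.neg (ZMod d)), h2, ← Finset.sum_neg_distrib]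
    refine Finset.sum_congr rfl fun u _ => ?_
    have h4 : ψ⁻¹ (-u) = ψ⁻¹ u := by
      have h5 : (ψ⁻¹ : DirichletCharacter ℂ d).Even := by
        unfold DirichletCharacter.Even at he ⊢
        rw [MulChar.inv_apply_eq_inv', he, inv_one]
      exact h5.eval_neg _ u
    have h6 : g (((-u).val : ℚ) / d) = - g ((u.val : ℚ) / d) := by
      rw [← h.odd]
      have h7 := h.congr_int hd (a := ((-u).val : ℕ)) (b := -(u.val : ℤ)) (by
        rw [← ZMod.intCast_zmod_eq_zero_iff_dvd]
        push_cast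
        rw [ZMod.natCast_zmod_val, ZMod.natCast_zmod_val]
        ring)
      push_cast at h7
      rw [h7]
      congr 1
      ring
    show ψ⁻¹ (-u) * g (((-u).val : ℚ) / d) = _
    rw [h4, h6]
    ring
  have h4 : 2 * HH g d ψ = 0 := by
    rw [two_mul]
    nth_rewrite 2 [h3]
    ring
  simpa using h4

/-- inversion -/
lemma inversion {g : ℚ → ℂ} {d : ℕ} (hd : 0 < d) (h0 : ∀ ψ : DirichletCharacter ℂ d, HH g d ψ = 0) {b : ℕ} (hbd : b < d)
    (hb : Nat.Coprime b d) : g ((b : ℚ) / d) = 0 := by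
  classical
  have : NeZero d := ⟨hd.ne'⟩
  have h1 : ∑ ψ : DirichletCharacter ℂ d, ψ (b : ZMod d) * HH g d ψ = 0 :=
    Finset.sum_eq_zero fun ψ _ => by rw [h0 ψ, mul_zero]
  unfold HH at h1
  have h2 : ∑ ψ : DirichletCharacter ℂ d, ψ (b : ZMod d) * ∑ a ∈ range d, ψ⁻¹ (a : ZMod d) * g ((a : ℚ) / d) =
      ∑ a ∈ range d, (∑ ψ : DirichletCharacter ℂ d, ψ (b : ZMod d) * ψ⁻¹ (a : ZMod d)) * g ((a : ℚ) / d) := by
    simp_rw [Finset.mul_sum, Finset.sum_mul]
    rw [Finset.sum_comm]
    refine Finset.sum_congr rfl fun a _ => Finset.sum_congr rfl fun ψ _ => ?_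
    ring
  rw [h2] at h1
  have h3 : ∀ a ∈ range d, (∑ ψ : DirichletCharacter ℂ d, ψ (b : ZMod d) * ψ⁻¹ (a : ZMod d)) =
      if a = b then (d.totient : ℂ) else 0 := by
    intro a ha
    rw [mem_range] at ha
    by_cases hau : IsUnit (a : ZMod d)
    · have h4 := sum_char_inv_mul_char_eq ℂ hau (b : ZMod d)
      have h5 : ∑ ψ : DirichletCharacter ℂ d, ψ (b : ZMod d) * ψ⁻¹ (a : ZMod d) =
          ∑ ψ : DirichletCharacter ℂ d, ψ (a : ZMod d)⁻¹ * ψ (b : ZMod d) := by
        refine Finset.sum_congr rfl fun ψ _ => ?_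
        rw [mul_comm, MulChar.inv_apply]
        obtain ⟨u, hu⟩ := hau
        rw [← hu, Ring.inverse_unit, ZMod.inv_coe_unit]
      rw [h5, h4]
      have h6 : ((a : ZMod d) = (b : ZMod d)) ↔ a = b := by
        rw [ZMod.natCast_eq_natCast_iff]
        unfold Nat.ModEq
        rw [Nat.mod_eq_of_lt ha, Nat.mod_eq_of_lt hbd]
      simp only [h6]
    · have h4 : a ≠ b := by
        rintro rfl
        exact hau ((ZMod.isUnit_iff_coprime _ _).mpr hb)
      rw [if_neg h4]
      refine Finset.sum_eq_zero fun ψ _ => ?_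
      rw [MulChar.map_nonunit _ hau, mul_zero]
  rw [Finset.sum_congr rfl (fun a ha => by rw [h3 a ha]), Finset.sum_eq_single b] at h1
  · rw [if_pos rfl] at h1
    rcases mul_eq_zero.mp h1 with h4 | h4
    · exfalso
      have := Nat.totient_pos.mpr hd
      rw [Nat.cast_eq_zero] at h4
      omega
    · exact h4
  · intro a _ hab
    rw [if_neg hab, zero_mul]
  · intro hh
    exact absurd (mem_range.mpr hbd) hh

end Pool.Agent.D0H21.LR
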