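import Mathlib

/-!
# Odd distributions on the rational numbers modulo one

An odd function `g` of period one with values in an abelian group is called an odd distribution if
`∑_(k < n) g ((x + k) / n) = g x` for all `n ≥ 1` and all rational `x`.
-/

set_option autoImplicit false

open Finset

namespace Pool.Agent.D0H21.LR

/-- odd distributions -/
structure OddDist {U : Type*} [AddCommGroup U] (g : ℚ → U) : Prop where
  per : ∀ x, g (x + 1) = g x
  odd : ∀ x, g (-x) = - g x
  dist : ∀ n : ℕ, 0 < n → ∀ x, ∑ k ∈ range n, g ((x + k) / n) = g x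

/-- torsion-free groups -/
def TF (U : Type*) [AddCommGroup U] : Prop := ∀ (n : ℕ) (u : U), 0 < n → n • u = 0 → u = 0

namespace OddDist

variable {U : Type*} [AddCommGroup U] {g : ℚ → U}

lemma per_nat (h : OddDist g) (x : ℚ) (n : ℕ) : g (x + n) = g x := by
  induction n with
  | zero => simp
  | succ n ih => rw [Nat.cast_succ, ← add_assoc, h.per, ih]

lemma per_int (h : OddDist g) (x : ℚ) (z : ℤ) : g (x + z) = g x := by
  obtain ⟨n, rfl | rfl⟩ := z.eq_nat_or_neg
  · exact_mod_cast h.per_nat x n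
  · have h1 := h.per_nat (x + ((-(n : ℤ) : ℤ) : ℚ)) n
    rw [← h1]
    congr 1
    push_cast
    ring

lemma congr_int (h : OddDist g) {m : ℕ} (hm : 0 < m) {a b : ℤ} (hab : (m : ℤ) ∣ a - b) :
    g ((a : ℚ) / m) = g ((b : ℚ) / m) := by
  obtain ⟨c, hc⟩ := hab
  have h1 : (a : ℚ) / m = (b : ℚ) / m + (c : ℤ) := by
    have h2 : (a : ℚ) = b + m * c := by
      have h3 : a = b + m * c := by linarith
      rw [h3]
      push_cast
      ring
    have hm' : (m : ℚ) ≠ 0 := by positivity
    rw [h2]
    field_simp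
  rw [h1, h.per_int]

lemma congr_nat (h : OddDist g) {m : ℕ} (hm : 0 < m) {a b : ℕ} (hab : a ≡ b [MOD m]) :
    g ((a : ℚ) / m) = g ((b : ℚ) / m) := by
  have h1 := h.congr_int hm (a := a) (b := b) (by
    have := (Nat.modEq_iff_dvd.mp hab.symm)
    exact this)
  simpa using h1

/-- the sum over a residue class -/
lemma sum_class (h : OddDist g) {m n : ℕ} (hm : 0 < m) (hn : 0 < n) (b : ℕ) :
    ∑ a ∈ (range (m * n)).filter (fun a => a ≡ b [MOD m]), g ((a : ℚ) / (m * n : ℕ)) = g ((b : ℚ) / m) := by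
  have h1 := h.dist n hn (((b % m : ℕ) : ℚ) / m)
  have h2 : g (((b % m : ℕ) : ℚ) / m) = g ((b : ℚ) / m) := h.congr_nat hm (Nat.mod_modEq b m)
  rw [← h2, ← h1]
  symm
  refine Finset.sum_bij (fun k _ => b % m + m * k) ?_ ?_ ?_ ?_
  · intro k hk
    rw [mem_range] at hk
    rw [mem_filter, mem_range]
    constructor
    · have h3 : b % m < m := Nat.mod_lt _ hm
      calc b % m + m * k < m + m * k := by omega
        _ = m * (k + 1) := by ring
        _ ≤ m * n := Nat.mul_le_mul_left _ hk
    · show (b % m + m * k) % m = b % m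
      rw [Nat.add_mul_mod_self_left, Nat.mod_mod]
  · intro k _ l _ hkl
    have h3 : m * k = m * l := by omega
    exact Nat.eq_of_mul_eq_mul_left hm h3
  · intro a ha
    rw [mem_filter, mem_range] at ha
    refine ⟨a / m, ?_, ?_⟩
    · rw [mem_range]
      exact Nat.div_lt_of_lt_mul ha.1
    · have h3 : a % m = b % m := ha.2
      show b % m + m * (a / m) = a
      rw [← h3]
      exact Nat.mod_add_div a m
  · intro k _
    congr 1
    push_cast
    have hm' : (m : ℚ) ≠ 0 := by positivity
    have hn' : (n : ℚ) ≠ 0 := by positivity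
    field_simp

/-- the sum over the elements of a residue class which are prime to `p` -/
lemma sum_class_prime (h : OddDist g) {p m n : ℕ} (hp : p.Prime) (hm : 0 < m) (hn : 0 < n) (hpm : Nat.Coprime p m)
    {b c : ℕ} (hbc : p * c ≡ b [MOD m]) :
    ∑ a ∈ (range (m * (p * n))).filter (fun a => a ≡ b [MOD m] ∧ ¬ p ∣ a), g ((a : ℚ) / (m * (p * n) : ℕ)) =
      g ((b : ℚ) / m) - g ((c : ℚ) / m) := by
  have hp0 := hp.pos
  have h1 := h.sum_class hm (Nat.mul_pos hp0 hn) b
  have h2 := h.sum_class hm hn c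
  have h3 : ∑ a ∈ (range (m * (p * n))).filter (fun a => a ≡ b [MOD m] ∧ p ∣ a), g ((a : ℚ) / (m * (p * n) : ℕ)) =
      ∑ a ∈ (range (m * n)).filter (fun a => a ≡ c [MOD m]), g ((a : ℚ) / (m * n : ℕ)) := by
    symm
    refine Finset.sum_bij (fun a _ => p * a) ?_ ?_ ?_ ?_
    · intro a ha
      rw [mem_filter, mem_range] at ha ⊢
      refine ⟨?_, ?_, dvd_mul_right _ _⟩
      · calc p * a < p * (m * n) := Nat.mul_lt_mul_of_pos_left ha.1 hp0
          _ = _ := by ring
      · exact (Nat.ModEq.mul_left p ha.2).trans hbc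
    · intro a _ b _ hab
      exact Nat.eq_of_mul_eq_mul_left hp0 hab
    · intro a ha
      rw [mem_filter, mem_range] at ha
      obtain ⟨a', rfl⟩ := ha.2.2
      refine ⟨a', ?_, rfl⟩
      rw [mem_filter, mem_range]
      refine ⟨?_, ?_⟩
      · have h4 : p * a' < p * (m * n) := by
          calc p * a' < m * (p * n) := ha.1
            _ = _ := by ring
        exact Nat.lt_of_mul_lt_mul_left h4
      · have h5 : p * a' ≡ p * c [MOD m] := ha.2.1.trans hbc.symm
        exact Nat.ModEq.cancel_left_of_coprime (by rw [Nat.gcd_comm]; exact hpm) h5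
    · intro a _
      congr 1
      push_cast
      have hm' : (m : ℚ) ≠ 0 := by positivity
      have hn' : (n : ℚ) ≠ 0 := by positivity
      have hp' : (p : ℚ) ≠ 0 := by positivity
      field_simp
  rw [← h1, ← h2, ← h3, eq_sub_iff_add_eq]
  rw [← Finset.sum_filter_add_sum_filter_not ((range (m * (p * n))).filter (fun a => a ≡ b [MOD m]))
    (fun a => ¬ p ∣ a), Finset.filter_filter, Finset.filter_filter]
  simp only [not_not]

/-- the telescoping sum -/
lemma sum_tel (h : OddDist g) {p m n : ℕ} (hp : p.Prime) (hm : 0 < m) (hn : 0 < n) (hpm : Nat.Coprime p m) (b k : ℕ) :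
    ∑ j ∈ range k, ∑ a ∈ (range (m * (p * n))).filter (fun a => a ≡ p ^ (j + 1) * b [MOD m] ∧ ¬ p ∣ a),
      g ((a : ℚ) / (m * (p * n) : ℕ)) = g (((p ^ k * b : ℕ) : ℚ) / m) - g ((b : ℚ) / m) := by
  induction k with
  | zero => simp
  | succ k ih =>
    rw [Finset.sum_range_succ, ih, h.sum_class_prime hp hm hn hpm (b := p ^ (k + 1) * b) (c := p ^ k * b)]
    · abel
    · rw [← mul_assoc, pow_succ']

/-- If `g` vanishes at the numerators prime to `m p n` which are powers of `p` modulo `m`, except perhaps at `1`, it vanishes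
at `1`. -/
lemma vanish_one (hU : TF U) (h : OddDist g) {p m n : ℕ} (hp : p.Prime) (hm : 0 < m) (hn : 0 < n) (hpm : Nat.Coprime p m)
    (hv : ∀ a : ℕ, a < m * (p * n) → a ≠ 1 → ¬ p ∣ a → (∃ j, a ≡ p ^ j [MOD m]) → g ((a : ℚ) / (m * (p * n) : ℕ)) = 0) :
    g ((1 : ℚ) / (m * (p * n) : ℕ)) = 0 := by
  classical
  have h1 := h.sum_tel hp hm hn hpm 1 (Nat.totient m)
  have h0 : 0 < Nat.totient m := Nat.totient_pos.mpr hm
  have h2 : g (((p ^ (Nat.totient m) * 1 : ℕ) : ℚ) / m) = g (((1 : ℕ) : ℚ) / m) :=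
    h.congr_nat hm (by rw [mul_one]; exact Nat.ModEq.pow_totient hpm)
  rw [h2, sub_self] at h1
  have hq : 1 < m * (p * n) := by
    have := hp.two_le
    calc 1 < p := by omega
      _ ≤ m * (p * n) := by
        calc p = 1 * (p * 1) := by ring
          _ ≤ m * (p * n) := by gcongr <;> omega
  have h3 : ∀ j ∈ range (Nat.totient m),
      ∑ a ∈ (range (m * (p * n))).filter (fun a => a ≡ p ^ (j + 1) * 1 [MOD m] ∧ ¬ p ∣ a),
        g ((a : ℚ) / (m * (p * n) : ℕ)) =
      if 1 ≡ p ^ (j + 1) [MOD m] then g ((1 : ℚ) / (m * (p * n) : ℕ)) else 0 := by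
    intro j _
    split_ifs with hj
    · rw [Finset.sum_eq_single 1]
      · push_cast
        rfl
      · intro a ha ha1
        rw [mem_filter, mem_range] at ha
        exact hv a ha.1 ha1 ha.2.2 ⟨j + 1, by simpa using ha.2.1⟩
      · intro hh
        exfalso
        apply hh
        rw [mem_filter, mem_range]
        exact ⟨hq, by simpa using hj, hp.one_lt.ne' ∘ Nat.dvd_one.mp⟩
    · refine Finset.sum_eq_zero fun a ha => ?_
      rw [mem_filter, mem_range] at ha
      refine hv a ha.1 ?_ ha.2.2 ⟨j + 1, by simpa using ha.2.1⟩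
      rintro rfl
      exact hj (by simpa using ha.2.1)
  rw [Finset.sum_congr rfl h3, ← Finset.sum_filter, Finset.sum_const] at h1
  refine hU _ _ ?_ h1
  rw [Finset.card_pos]
  refine ⟨Nat.totient m - 1, ?_⟩
  rw [mem_filter, mem_range]
  refine ⟨by omega, ?_⟩
  rw [Nat.sub_add_cancel h0]
  exact (Nat.ModEq.pow_totient hpm).symm

/-- If `-1` is a power of `p` modulo `m`, and `g` vanishes at the numerators prime to `m p n`, it vanishes at `b / m`. -/
lemma vanish_class (hU : TF U) (h : OddDist g) {p m n : ℕ} (hp : p.Prime) (hm : 0 < m) (hn : 0 < n)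
    (hpm : Nat.Coprime p m) {k : ℕ} (hk : m ∣ p ^ k + 1) {b : ℕ} (hb : Nat.Coprime b m)
    (hv : ∀ a : ℕ, ¬ p ∣ a → Nat.Coprime a m → g ((a : ℚ) / (m * (p * n) : ℕ)) = 0) : g ((b : ℚ) / m) = 0 := by
  have h1 := h.sum_tel hp hm hn hpm b k
  rw [Finset.sum_eq_zero] at h1
  · have h2 : g (((p ^ k * b : ℕ) : ℚ) / m) = - g ((b : ℚ) / m) := by
      rw [← h.odd]
      have h3 := h.congr_int hm (a := (p ^ k * b : ℕ)) (b := -(b : ℤ)) (by
        obtain ⟨c, hc⟩ := hk
        refine ⟨c * b, ?_⟩
        have h4 : ((p : ℤ) ^ k + 1) = m * c := by exact_mod_cast hc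
        push_cast
        calc (p : ℤ) ^ k * b - -b = ((p : ℤ) ^ k + 1) * b := by ring
          _ = _ := by rw [h4]; ring)
      push_cast at h3 ⊢
      rw [h3]
      congr 1
      ring
    rw [h2] at h1
    have h5 : 2 • g ((b : ℚ) / m) = 0 := by
      rw [two_nsmul]
      have h6 : g ((b : ℚ) / m) + g ((b : ℚ) / m) = -(- g ((b : ℚ) / m) - g ((b : ℚ) / m)) := by abel
      rw [h6, ← h1, neg_zero]
    exact hU 2 _ two_pos h5
  · intro j _
    refine Finset.sum_eq_zero fun a ha => ?_
    rw [mem_filter, mem_range] at ha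
    refine hv a ha.2.2 ?_
    have h3 : Nat.Coprime (p ^ (j + 1) * b) m := Nat.Coprime.mul_left (Nat.Coprime.pow_left _ hpm) hb
    have h4 := ha.2.1.gcd_eq
    unfold Nat.Coprime at h3 ⊢
    rw [h4, h3]

/-- For all prime factors `p` of `q`, `-1` is a power of `p` modulo the part of `q` prime to `p`. -/
def MinusOne (q : ℕ) : Prop := ∀ p : ℕ, p.Prime → p ∣ q → ∃ k : ℕ, q / p ^ padicValNat p q ∣ p ^ k + 1

lemma part (p q : ℕ) (hp : p.Prime) (hq : 0 < q) (hpq : p ∣ q) :
    ∃ n, 0 < n ∧ q = (q / p ^ padicValNat p q) * (p * n) ∧ Nat.Coprime p (q / p ^ padicValNat p q) := by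
  have : Fact p.Prime := ⟨hp⟩
  have h1 : p ^ padicValNat p q ∣ q := pow_padicValNat_dvd
  have h2 : 0 < padicValNat p q := by
    have := one_le_padicValNat_of_dvd hq.ne' hpq
    omega
  refine ⟨p ^ (padicValNat p q - 1), pow_pos hp.pos _, ?_, ?_⟩
  · rw [← pow_succ', Nat.sub_add_cancel h2, Nat.div_mul_cancel h1]
  · have h3 := Nat.coprime_ordCompl hp hq.ne'
    rwa [Nat.factorization_def q hp] at h3

lemma MinusOne.of_dvd {q q' : ℕ} (h : MinusOne q) (hd : q' ∣ q) : MinusOne q' := by
  intro p hp hpq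
  obtain ⟨k, hk⟩ := h p hp (hpq.trans hd)
  refine ⟨k, dvd_trans ?_ hk⟩
  have h1 := Nat.ordCompl_dvd_ordCompl_of_dvd hd p
  rwa [Nat.factorization_def q hp, Nat.factorization_def q' hp] at h1

/-- If `-1` is a power of `p` modulo the part of `q` prime to `p`, for all `p`, and `g` vanishes at the fractions with
denominator `q` then it vanishes at all fractions with denominators dividing `q`. -/
lemma vanish_all (hU : TF U) (h : OddDist g) : ∀ q : ℕ, 0 < q → MinusOne q →
    (∀ a : ℕ, Nat.Coprime a q → g ((a : ℚ) / q) = 0) → ∀ a : ℕ, g ((a : ℚ) / q) = 0 := by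
  intro q
  induction q using Nat.strong_induction_on with
  | _ q ih =>
    intro hq hC hv a
    by_cases hc : Nat.Coprime a q
    · exact hv a hc
    · obtain ⟨p, hp, hpa, hpq⟩ := Nat.Prime.not_coprime_iff_dvd.mp hc
      obtain ⟨a', rfl⟩ := hpa
      obtain ⟨q', rfl⟩ := hpq
      have hp0 := hp.pos
      have hq' : 0 < q' := Nat.pos_of_mul_pos_left hq
      have h1 : ((p * a' : ℕ) : ℚ) / (p * q' : ℕ) = (a' : ℚ) / q' := by
        push_cast
        have hp' : (p : ℚ) ≠ 0 := by positivity
        have hq'' : (q' : ℚ) ≠ 0 := by positivity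
        field_simp
      rw [h1]
      refine ih q' ?_ hq' (hC.of_dvd (dvd_mul_left _ _)) ?_ a'
      · have := hp.two_le
        nlinarith
      · intro c hc'
        by_cases hpq' : p ∣ q'
        · rw [← h.sum_class hq' hp0 c]
          refine Finset.sum_eq_zero fun x hx => ?_
          rw [mem_filter] at hx
          have h2 : Nat.Coprime x q' := by
            have h4 := hx.2.gcd_eq
            unfold Nat.Coprime at hc' ⊢
            rw [h4, hc']
          have h3 : Nat.Coprime x (p * q') := by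
            refine Nat.Coprime.mul_right ?_ h2
            exact Nat.Coprime.coprime_dvd_right hpq' h2
          have h5 := hv x h3
          rw [mul_comm q' p]
          exact h5
        · obtain ⟨k, hk⟩ := hC p hp (dvd_mul_right _ _)
          have : Fact p.Prime := ⟨hp⟩
          have h2 : padicValNat p (p * q') = 1 := by
            rw [padicValNat.mul hp.ne_zero hq'.ne', padicValNat.self hp.one_lt,
              padicValNat.eq_zero_of_not_dvd hpq']
          rw [h2, pow_one, Nat.mul_div_cancel_left _ hp0] at hk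
          have hpc : Nat.Coprime p q' := (Nat.Prime.coprime_iff_not_dvd hp).mpr hpq'
          refine h.vanish_class hU hp hq' one_pos hpc hk hc' (fun x hx hx' => ?_)
          have h3 : Nat.Coprime x (p * q') :=
            Nat.Coprime.mul_right ((Nat.Prime.coprime_iff_not_dvd hp).mpr hx).symm hx'
          have h5 := hv x h3
          rw [mul_one, mul_comm q' p]
          exact h5

end OddDist

end Pool.Agent.D0H21.LR
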