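import Pool.Agent.D0H21.LR.Gauss
import Pool.Agent.D0H21.LR.Dist

/-!
# The Gamma function as an odd distribution modulo numbers algebraic over a field which contains `π`

Let `L` be a subfield of `ℂ` which contains `π`. The classes of the numbers `Γ(x)`, `x` rational, in the multiplicative group of
`ℂ` modulo the numbers algebraic over `L` form an odd distribution.
-/

set_option autoImplicit false

open Finset

namespace Pool.Agent.D0H21.LR

variable (L : IntermediateField ℚ ℂ)

/-- the units which are algebraic over `L` -/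
def algUnits : Subgroup ℂˣ where
  carrier := {u | IsAlgebraic L (u : ℂ)}
  mul_mem' := by
    intro a b ha hb
    simp only [Set.mem_ofPred_eq, Units.val_mul] at *
    exact ha.mul hb
  one_mem' := by
    simp only [Set.mem_ofPred_eq, Units.val_one]
    exact isAlgebraic_one
  inv_mem' := by
    intro a ha
    simp only [Set.mem_ofPred_eq, Units.val_inv_eq_inv_val] at *
    exact ha.inv

/-- the multiplicative group modulo the algebraic numbers, written additively -/
def UQ : Type := Additive (ℂˣ ⧸ algUnits L)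

noncomputable instance : AddCommGroup (UQ L) := inferInstanceAs (AddCommGroup (Additive (ℂˣ ⧸ algUnits L)))

/-- the class of a unit -/
noncomputable def ucls (u : ℂˣ) : UQ L := Additive.ofMul (QuotientGroup.mk u : ℂˣ ⧸ algUnits L)

variable {L} in
lemma ucls_mul (u v : ℂˣ) : ucls L (u * v) = ucls L u + ucls L v := rfl

variable {L} in
lemma ucls_one : ucls L 1 = 0 := rfl

variable {L} in
lemma ucls_pow (u : ℂˣ) (n : ℕ) : ucls L (u ^ n) = n • ucls L u := by
  induction n with
  | zero => rw [pow_zero, zero_smul, ucls_one]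
  | succ n ih => rw [pow_succ, ucls_mul, ih, succ_nsmul]

variable {L} in
lemma ucls_surj (x : UQ L) : ∃ u, ucls L u = x := by
  obtain ⟨v, hv⟩ := Additive.ofMul.surjective x
  obtain ⟨w, rfl⟩ := QuotientGroup.mk_surjective v
  exact ⟨w, hv⟩

variable {L} in
lemma ucls_eq_zero_iff (u : ℂˣ) : ucls L u = 0 ↔ IsAlgebraic L (u : ℂ) :=
  QuotientGroup.eq_one_iff (N := algUnits L) u

/-- the class of a real number -/
noncomputable def cls (r : ℝ) : UQ L :=
  if h : (r : ℂ) = 0 then 0 else ucls L (Units.mk0 (r : ℂ) h)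

variable {L}

lemma cls_mul {r s : ℝ} (hr : r ≠ 0) (hs : s ≠ 0) : cls L (r * s) = cls L r + cls L s := by
  have hr' : (r : ℂ) ≠ 0 := by exact_mod_cast hr
  have hs' : (s : ℂ) ≠ 0 := by exact_mod_cast hs
  have hrs : ((r * s : ℝ) : ℂ) ≠ 0 := by exact_mod_cast mul_ne_zero hr hs
  unfold cls
  rw [dif_neg hr', dif_neg hs', dif_neg hrs, ← ucls_mul]
  congr 1
  ext
  simp

lemma cls_eq_zero {r : ℝ} (h : IsAlgebraic L (r : ℂ)) : cls L r = 0 := by
  unfold cls
  split_ifs with hr
  · rfl
  · rw [ucls_eq_zero_iff]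
    exact h

lemma isAlgebraic_of_cls {r : ℝ} (h : cls L r = 0) : IsAlgebraic L (r : ℂ) := by
  unfold cls at h
  split_ifs at h with hr
  · rw [hr]
    exact isAlgebraic_zero
  · rw [ucls_eq_zero_iff] at h
    exact h

lemma tf : TF (UQ L) := by
  intro n u hn hu
  obtain ⟨w, rfl⟩ := ucls_surj u
  rw [← ucls_pow, ucls_eq_zero_iff, Units.val_pow_eq_pow_val] at hu
  rw [ucls_eq_zero_iff]
  exact hu.of_pow hn

lemma cls_prod {ι : Type*} (s : Finset ι) (f : ι → ℝ) (hf : ∀ i ∈ s, f i ≠ 0) :
    cls L (∏ i ∈ s, f i) = ∑ i ∈ s, cls L (f i) := by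
  classical
  induction s using Finset.induction_on with
  | empty =>
    rw [Finset.prod_empty, Finset.sum_empty]
    exact cls_eq_zero (by rw [Complex.ofReal_one]; exact isAlgebraic_one)
  | insert a s ha ih =>
    rw [Finset.prod_insert ha, Finset.sum_insert ha, cls_mul (hf a (Finset.mem_insert_self _ _)) ?_, ih ?_]
    · intro i hi
      exact hf i (Finset.mem_insert_of_mem hi)
    · rw [Finset.prod_ne_zero_iff]
      intro i hi
      exact hf i (Finset.mem_insert_of_mem hi)

lemma alg_of_rat {z : ℂ} (h : IsAlgebraic ℚ z) : IsAlgebraic L z := h.tower_top L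

lemma alg_rat (x : ℚ) : IsAlgebraic L (((x : ℝ)) : ℂ) := by
  have : (((x : ℝ)) : ℂ) = algebraMap ℚ ℂ x := by simp
  rw [this]
  exact alg_of_rat (isAlgebraic_algebraMap x)

lemma cls_Gamma_add_one {x : ℚ} (hx : 0 < x) : cls L (Real.Gamma ((x + 1 : ℚ) : ℝ)) = cls L (Real.Gamma (x : ℝ)) := by
  have hx' : (0 : ℝ) < x := by exact_mod_cast hx
  rw [Rat.cast_add, Rat.cast_one, Real.Gamma_add_one hx'.ne', cls_mul hx'.ne' (Real.Gamma_pos_of_pos hx').ne',
    cls_eq_zero (alg_rat x), zero_add]

lemma cls_Gamma_add_nat {x : ℚ} (hx : 0 < x) (n : ℕ) :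
    cls L (Real.Gamma ((x + n : ℚ) : ℝ)) = cls L (Real.Gamma (x : ℝ)) := by
  induction n with
  | zero => simp
  | succ n ih =>
    rw [Nat.cast_succ, ← add_assoc, cls_Gamma_add_one (by positivity), ih]

variable (L) in
/-- the distribution given by the Gamma function -/
noncomputable def gd (x : ℚ) : UQ L := cls L (Real.Gamma ((1 + Int.fract x : ℚ) : ℝ))

lemma gd_eq {x : ℚ} (hx : 0 < x) : gd L x = cls L (Real.Gamma (x : ℝ)) := by
  unfold gd
  have h1 : 0 ≤ ⌊x⌋ := Int.floor_nonneg.mpr hx.le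
  obtain ⟨n, hn⟩ := Int.eq_ofNat_of_zero_le h1
  have hf := Int.fract_nonneg x
  have h2 : (1 + Int.fract x) + n = x + 1 := by
    have h3 := Int.floor_add_fract x
    rw [hn] at h3
    push_cast at h3
    linarith
  have h4 := cls_Gamma_add_nat (L := L) (x := 1 + Int.fract x) (by positivity) n
  have h5 := cls_Gamma_add_nat (L := L) hx 1
  rw [← h4, h2, ← h5]
  simp

lemma rpow_alg (n : ℕ) (x : ℚ) : IsAlgebraic L (((n : ℝ) ^ (x : ℝ) : ℝ) : ℂ) := by
  have h1 : 0 < x.den := x.den_pos
  refine IsAlgebraic.of_pow h1 ?_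
  have hxd : (x : ℝ) * x.den = x.num := by exact_mod_cast x.mul_den_eq_num
  have h2 : ((n : ℝ) ^ (x : ℝ)) ^ x.den = (n : ℝ) ^ x.num := by
    rw [← Real.rpow_natCast, ← Real.rpow_mul (by positivity), hxd, Real.rpow_intCast]
  have h3 : ((((n : ℝ) ^ (x : ℝ) : ℝ) : ℂ)) ^ x.den = (((((n : ℚ) ^ x.num : ℚ) : ℝ)) : ℂ) := by
    rw [← Complex.ofReal_pow, h2]
    push_cast
    rfl
  rw [h3]
  exact alg_rat _

lemma sin_alg (x : ℚ) : IsAlgebraic L ((Real.sin (Real.pi * (x : ℝ)) : ℝ) : ℂ) := by
  have h1 : IsAlgebraic ℤ (Complex.sin ((x : ℂ) * Real.pi)) := Complex.isAlgebraic_sin_rat_mul_pi x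
  have h2 : IsAlgebraic ℚ (Complex.sin ((x : ℂ) * Real.pi)) := h1.extendScalars Int.cast_injective
  have h3 : ((Real.sin (Real.pi * (x : ℝ)) : ℝ) : ℂ) = Complex.sin ((x : ℂ) * Real.pi) := by
    rw [mul_comm]
    push_cast
    rfl
  rw [h3]
  exact alg_of_rat h2

lemma pi_alg (hL : (Real.pi : ℂ) ∈ L) : IsAlgebraic L ((Real.pi : ℝ) : ℂ) := by
  have := isAlgebraic_algebraMap (R := L) (A := ℂ) ⟨(Real.pi : ℂ), hL⟩
  exact this

lemma prodG_one_alg (hL : (Real.pi : ℂ) ∈ L) {n : ℕ} (hn : 0 < n) : IsAlgebraic L ((prodG n 1 : ℝ) : ℂ) := by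
  refine IsAlgebraic.of_pow two_pos ?_
  rw [← Complex.ofReal_pow, prodG_one_sq hn, Complex.ofReal_prod]
  refine Finset.prod_induction _ (fun z : ℂ => IsAlgebraic L z) (fun a b ha hb => ha.mul hb) isAlgebraic_one
    fun k _ => ?_
  rw [Complex.ofReal_div, div_eq_mul_inv]
  refine (pi_alg hL).mul (IsAlgebraic.inv ?_)
  have := sin_alg (L := L) (((k + 1 : ℕ) : ℚ) / n)
  push_cast at this ⊢
  exact this

/-- The Gamma function gives an odd distribution. -/
theorem gd_odd (hL : (Real.pi : ℂ) ∈ L) : OddDist (gd L) := by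
  have hper : ∀ x, gd L (x + 1) = gd L x := by
    intro x
    unfold gd
    rw [Int.fract_add_one]
  have hint : ∀ (x : ℚ) (z : ℤ), gd L (x + z) = gd L x := by
    intro x z
    unfold gd
    rw [Int.fract_add_intCast]
  refine ⟨hper, ?_, ?_⟩
  · intro x
    rw [eq_neg_iff_add_eq_zero]
    have h1 : gd L x = gd L (Int.fract x) := by
      unfold gd
      rw [Int.fract_fract]
    have h2 : gd L (-x) = gd L (1 - Int.fract x) := by
      have h3 : 1 - Int.fract x = -x + ((⌊x⌋ + 1 : ℤ) : ℚ) := by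
        have := Int.floor_add_fract x
        push_cast
        linarith
      rw [h3, hint]
    rcases eq_or_lt_of_le (Int.fract_nonneg x) with h0 | h0
    · rw [h1, h2, ← h0, sub_zero]
      have h3 : gd L 1 = 0 := by
        rw [gd_eq one_pos]
        refine cls_eq_zero ?_
        rw [Rat.cast_one, Real.Gamma_one, Complex.ofReal_one]
        exact isAlgebraic_one
      have h4 : gd L 0 = 0 := by
        rw [← hper 0, zero_add, h3]
      rw [h3, h4, add_zero]
    · have h3 := Int.fract_lt_one x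
      have h0' : (0 : ℝ) < (Int.fract x : ℚ) := by exact_mod_cast h0
      have h3' : (0 : ℝ) < ((1 - Int.fract x : ℚ) : ℝ) := by
        have h5 : (0 : ℚ) < 1 - Int.fract x := by linarith
        exact_mod_cast h5
      rw [h1, h2, gd_eq (by linarith), gd_eq h0, add_comm,
        ← cls_mul (Real.Gamma_pos_of_pos h0').ne' (Real.Gamma_pos_of_pos h3').ne']
      refine cls_eq_zero ?_
      rw [Rat.cast_sub, Rat.cast_one, Real.Gamma_mul_Gamma_one_sub, Complex.ofReal_div, div_eq_mul_inv]
      exact (pi_alg hL).mul (IsAlgebraic.inv (sin_alg _))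
  · intro n hn
    have hn' : (n : ℚ) ≠ 0 := by positivity
    have hn'' : (0 : ℝ) < n := by positivity
    have hpos : ∀ x : ℚ, 0 < x → ∑ k ∈ range n, gd L ((x + k) / n) = gd L x := by
      intro x hx
      have hx' : (0 : ℝ) < x := by exact_mod_cast hx
      rw [gd_eq hx]
      have h1 : ∀ k ∈ range n, gd L ((x + k) / n) = cls L (Real.Gamma (((x : ℝ) + k) / n)) := by
        intro k _
        rw [gd_eq (by positivity)]
        push_cast
        rfl
      rw [Finset.sum_congr rfl h1, ← cls_prod]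
      · have h2 : ∏ k ∈ range n, Real.Gamma (((x : ℝ) + k) / n) = prodG n x := rfl
        rw [h2, prodG_eq hn hx', cls_mul (mul_ne_zero (by positivity) (prodG_pos hn one_pos).ne')
          (Real.Gamma_pos_of_pos hx').ne', cls_mul (by positivity) (prodG_pos hn one_pos).ne',
          cls_eq_zero (prodG_one_alg hL hn)]
        have h3 := rpow_alg (L := L) n (1 - x)
        rw [Rat.cast_sub, Rat.cast_one] at h3
        rw [cls_eq_zero h3, zero_add, zero_add]
      · intro k _
        exact (Real.Gamma_pos_of_pos (by positivity)).ne'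
    have hstep : ∀ x : ℚ, ∑ k ∈ range n, gd L ((x + 1 + k) / n) = ∑ k ∈ range n, gd L ((x + k) / n) := by
      intro x
      have h1 : ∑ k ∈ range n, gd L ((x + 1 + k) / n) = ∑ k ∈ range n, gd L ((x + ((k + 1 : ℕ) : ℚ)) / n) := by
        refine Finset.sum_congr rfl fun k _ => ?_
        congr 2
        push_cast
        ring
      have h2 := Finset.sum_range_succ (fun k : ℕ => gd L ((x + (k : ℚ)) / n)) n
      have h3 := Finset.sum_range_succ' (fun k : ℕ => gd L ((x + (k : ℚ)) / n)) n
      have h4 : gd L ((x + (n : ℚ)) / n) = gd L ((x + ((0 : ℕ) : ℚ)) / n) := by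
        rw [Nat.cast_zero, add_zero, ← hper (x / n)]
        congr 1
        field_simp
      rw [h1]
      rw [h2, h4] at h3
      exact (add_right_cancel h3).symm
    have hnat : ∀ (x : ℚ) (N : ℕ), ∑ k ∈ range n, gd L ((x + N + k) / n) = ∑ k ∈ range n, gd L ((x + k) / n) := by
      intro x N
      induction N with
      | zero => simp
      | succ N ih =>
        rw [← ih, ← hstep (x + N)]
        refine Finset.sum_congr rfl fun k _ => ?_
        congr 2
        push_cast
        ring
    intro x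
    obtain ⟨N, hN⟩ := exists_nat_gt (-x)
    rw [← hnat x N, hpos _ (by linarith)]
    have := hint x N
    push_cast at this
    exact this

end Pool.Agent.D0H21.LR
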