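import Pool.Agent.D0H21.LR.Cls

/-!
# Transcendence degrees of fields generated by values of the Gamma function
-/

set_option autoImplicit false

open Finset Cardinal

namespace Pool.Agent.D0H21.LR

/-- The transcendence degree of a field generated by a finite set. -/
lemma trdeg_adjoin_le (S : Finset ℂ) :
    Algebra.trdeg ℚ (IntermediateField.adjoin ℚ (S : Set ℂ)) ≤ (S.card : Cardinal) := by
  classical
  obtain ⟨F, hF⟩ : ∃ F, F = IntermediateField.adjoin ℚ (S : Set ℂ) := ⟨_, rfl⟩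
  rw [← hF]
  let s : Set F := {y | (y : ℂ) ∈ S}
  have hmem : ∀ r ∈ Algebra.adjoin ℚ (S : Set ℂ), ∃ r' : F, r' ∈ Algebra.adjoin ℚ s ∧ (r' : ℂ) = r := by
    intro r hr
    induction hr using Algebra.adjoin_induction with
    | mem x hx =>
      have hxF : x ∈ F := by
        rw [hF]
        exact IntermediateField.subset_adjoin ℚ _ hx
      exact ⟨⟨x, hxF⟩, Algebra.subset_adjoin hx, rfl⟩
    | algebraMap r => exact ⟨algebraMap ℚ F r, Subalgebra.algebraMap_mem _ _, rfl⟩
    | add x y _ _ hx hy =>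
      obtain ⟨x', hx', rfl⟩ := hx
      obtain ⟨y', hy', rfl⟩ := hy
      exact ⟨x' + y', add_mem hx' hy', rfl⟩
    | mul x y _ _ hx hy =>
      obtain ⟨x', hx', rfl⟩ := hx
      obtain ⟨y', hy', rfl⟩ := hy
      exact ⟨x' * y', mul_mem hx' hy', rfl⟩
  have : Algebra.IsAlgebraic (Algebra.adjoin ℚ s) F := by
    constructor
    intro y
    have hy2 : (y : ℂ) ∈ IntermediateField.adjoin ℚ (S : Set ℂ) := by
      rw [← hF]
      exact y.2
    obtain ⟨r, hr, t, ht, hy⟩ := (IntermediateField.mem_adjoin_iff_div).1 hy2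
    obtain ⟨r', hr', rfl⟩ := hmem r hr
    obtain ⟨t', ht', rfl⟩ := hmem t ht
    have hy' : y = r' / t' := by
      apply Subtype.ext
      rw [hy]
      rfl
    by_cases h0 : t' = 0
    · rw [hy', h0, div_zero]
      exact isAlgebraic_zero
    · have h1 : IsAlgebraic (Algebra.adjoin ℚ s) r' :=
        isAlgebraic_algebraMap (⟨r', hr'⟩ : Algebra.adjoin ℚ s)
      have h2 : IsAlgebraic (Algebra.adjoin ℚ s) t' :=
        isAlgebraic_algebraMap (⟨t', ht'⟩ : Algebra.adjoin ℚ s)
      rw [hy', div_eq_mul_inv]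
      exact h1.mul h2.inv
  have h1 : Algebra.trdeg ℚ F ≤ #s := Algebra.IsAlgebraic.trdeg_le_cardinalMk ℚ s
  have h2 : #s ≤ S.card := by
    rw [← Cardinal.mk_coe_finset]
    refine Cardinal.mk_le_of_injective (f := fun y : s => (⟨((y : F) : ℂ), y.2⟩ : S)) ?_
    intro a b hab
    apply Subtype.ext
    apply Subtype.ext
    exact congrArg (fun z : S => (z : ℂ)) hab
  exact h1.trans h2

/-- If the generators of a field are algebraic over `L`, its transcendence degree is at most that of `L`. -/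
lemma trdeg_le_of_alg (L : IntermediateField ℚ ℂ) (s : Set ℂ) (h : ∀ z ∈ s, IsAlgebraic L z) :
    Algebra.trdeg ℚ (IntermediateField.adjoin ℚ s) ≤ Algebra.trdeg ℚ L := by
  obtain ⟨M, hM⟩ : ∃ M, M = algebraicClosure L ℂ := ⟨_, rfl⟩
  have hle : IntermediateField.adjoin ℚ s ≤ M.restrictScalars ℚ := by
    rw [IntermediateField.adjoin_le_iff]
    intro z hz
    have : z ∈ M := by
      rw [hM, mem_algebraicClosure_iff]
      exact h z hz
    exact this
  have h1 : Algebra.trdeg ℚ (IntermediateField.adjoin ℚ s) ≤ Algebra.trdeg ℚ (M.restrictScalars ℚ) :=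
    trdeg_le_of_injective (IntermediateField.inclusion hle) (IntermediateField.inclusion_injective hle)
  have h2 : Algebra.trdeg ℚ L + Algebra.trdeg L M = Algebra.trdeg ℚ M := trdeg_add_eq ℚ L
  have h3 : Algebra.trdeg L M = 0 := by
    have : Algebra.IsAlgebraic L M := by
      rw [hM]
      infer_instance
    exact trdeg_eq_zero
  rw [h3, add_zero] at h2
  calc Algebra.trdeg ℚ (IntermediateField.adjoin ℚ s) ≤ Algebra.trdeg ℚ (M.restrictScalars ℚ) := h1
    _ = Algebra.trdeg ℚ M := rfl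
    _ = _ := h2.symm

/-- the generators of the field `F_q` -/
def gens (q : ℕ) : Set ℂ :=
  {(Real.pi : ℂ)} ∪ {z | ∃ a : ℕ, 1 ≤ a ∧ a ≤ q - 1 ∧ Nat.Coprime a q ∧ z = Complex.Gamma (a / q)}

/-- `π` and all the numbers `Γ(a / q)` -/
def gensAll (q : ℕ) : Set ℂ :=
  {(Real.pi : ℂ)} ∪ {z | ∃ a : ℕ, 1 ≤ a ∧ a ≤ q - 1 ∧ z = Complex.Gamma (a / q)}

lemma gd_zero_iff (L : IntermediateField ℚ ℂ) {a q : ℕ} (ha : 0 < a) (hq : 0 < q) :
    gd L ((a : ℚ) / q) = 0 ↔ IsAlgebraic L (Complex.Gamma (a / q)) := by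
  have h1 : (0 : ℚ) < (a : ℚ) / q := by positivity
  have h2 : Complex.Gamma (a / q) = ((Real.Gamma (((a : ℚ) / q : ℚ) : ℝ) : ℝ) : ℂ) := by
    rw [← Complex.Gamma_ofReal]
    push_cast
    rfl
  rw [gd_eq h1, h2]
  exact ⟨isAlgebraic_of_cls, cls_eq_zero⟩

lemma gd_rev {L : IntermediateField ℚ ℂ} (hL : (Real.pi : ℂ) ∈ L) {a q : ℕ} (haq : a ≤ q) (hq : 0 < q) :
    gd L (((q - a : ℕ) : ℚ) / q) = - gd L ((a : ℚ) / q) := by
  have h := gd_odd hL
  rw [← h.odd, ← h.per (-((a : ℚ) / q))]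
  congr 1
  rw [Nat.cast_sub haq]
  have : (q : ℚ) ≠ 0 := by positivity
  field_simp
  ring

/-- the numerators prime to `q` -/
def units (q : ℕ) : Finset ℕ := (range q).filter fun a => Nat.Coprime a q

lemma card_units (q : ℕ) : (units q).card = Nat.totient q := by
  rw [Nat.totient_eq_card_coprime]
  unfold units
  congr 1
  ext a
  rw [mem_filter, mem_filter, Nat.coprime_comm]

lemma two_mul_ne {a q : ℕ} (hq : 2 < q) (h : Nat.Coprime a q) : 2 * a ≠ q := by
  rintro rfl
  have h1 : a = 1 := by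
    have := Nat.Coprime.eq_one_of_dvd h (dvd_mul_left _ _)
    exact this
  omega

/-- a set `T` of numerators prime to `q` with `T ∩ (q - T) = ∅` -/
lemma card_half {q : ℕ} (hq : 2 < q) (T : Finset ℕ) (hT : T ⊆ units q) (hd : ∀ a ∈ T, q - a ∉ T) :
    2 * T.card ≤ Nat.totient q := by
  classical
  have hpos : ∀ a ∈ units q, 0 < a ∧ a < q := by
    intro a ha
    rw [units, mem_filter, mem_range] at ha
    refine ⟨?_, ha.1⟩
    rcases Nat.eq_zero_or_pos a with rfl | h
    · have := ha.2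
      rw [Nat.coprime_zero_left] at this
      omega
    · exact h
  have h1 : (T.image fun a => q - a) ⊆ units q := by
    intro b hb
    rw [mem_image] at hb
    obtain ⟨a, ha, rfl⟩ := hb
    have h2 := hT ha
    have h3 := hpos a h2
    rw [units, mem_filter, mem_range] at h2 ⊢
    refine ⟨by omega, ?_⟩
    exact (Nat.coprime_self_sub_left h3.2.le).mpr h2.2
  have h2 : Disjoint T (T.image fun a => q - a) := by
    rw [Finset.disjoint_left]
    intro b hb hb'
    rw [mem_image] at hb'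
    obtain ⟨a, ha, rfl⟩ := hb'
    exact hd a ha hb
  have h3 : (T.image fun a => q - a).card = T.card := by
    refine Finset.card_image_of_injOn ?_
    intro a ha b hb hab
    have h4 := hpos a (hT ha)
    have h5 := hpos b (hT hb)
    simp only at hab
    omega
  have h4 : (T ∪ T.image fun a => q - a).card ≤ (units q).card :=
    Finset.card_le_card (Finset.union_subset hT h1)
  rw [Finset.card_union_of_disjoint h2, h3, card_units] at h4
  omega

/-- If `-1` is not a power of `p` modulo the part of `q` prime to `p`, for some prime `p` dividing `q`, the transcendence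
degree of the field `F_q` is at most `φ(q) / 2`. -/
theorem trdeg_le {q : ℕ} (hq : 2 < q) (h : ¬ OddDist.MinusOne q) :
    Algebra.trdeg ℚ (IntermediateField.adjoin ℚ (gens q)) ≤ ((Nat.totient q / 2 : ℕ) : Cardinal) := by
  classical
  unfold OddDist.MinusOne at h
  push Not at h
  obtain ⟨p, hp, hpq, hk⟩ := h
  have hq0 : 0 < q := by omega
  obtain ⟨m, hm⟩ : ∃ m, m = q / p ^ padicValNat p q := ⟨_, rfl⟩
  obtain ⟨n, hn, hqn, hpm⟩ := OddDist.part p q hp hq0 hpq
  rw [← hm] at hk hqn hpm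
  have hm0 : 0 < m := by
    rcases Nat.eq_zero_or_pos m with h0 | h0
    · rw [h0, zero_mul] at hqn
      omega
    · exact h0
  have : Fact p.Prime := ⟨hp⟩
  have hcop : ∀ a : ℕ, ¬ p ∣ a → Nat.Coprime a m → Nat.Coprime a q := by
    intro a ha ham
    have h1 : q = p ^ padicValNat p q * m := by
      rw [hm, Nat.mul_div_cancel' pow_padicValNat_dvd]
    rw [h1]
    exact Nat.Coprime.mul_right (Nat.Coprime.pow_right _ ((Nat.Prime.coprime_iff_not_dvd hp).mpr ha).symm) ham
  obtain ⟨P, hP⟩ : ∃ P : ℕ → Prop, P = fun a => ∃ j, a ≡ p ^ j [MOD m] := ⟨_, rfl⟩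
  have hP1 : P 1 := by
    rw [hP]
    exact ⟨0, by rw [pow_zero]⟩
  have hmq : m ∣ q := by
    rw [hqn]
    exact dvd_mul_right _ _
  -- the set is disjoint from its negative
  have hPP : ∀ a, a ≤ q → P a → ¬ P (q - a) := by
    have key : ∀ i j : ℕ, i ≤ j → ¬ m ∣ p ^ i + p ^ j := by
      intro i j hij hd
      obtain ⟨l, rfl⟩ := Nat.exists_eq_add_of_le hij
      rw [pow_add] at hd
      have h2 : p ^ i + p ^ i * p ^ l = p ^ i * (p ^ l + 1) := by ring
      rw [h2] at hd
      exact hk l (Nat.Coprime.dvd_of_dvd_mul_left (Nat.Coprime.pow_right _ hpm.symm) hd)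
    intro a haq h1 h2
    rw [hP] at h1 h2
    obtain ⟨i, hi⟩ := h1
    obtain ⟨j, hj⟩ := h2
    have h3 : a + (q - a) ≡ p ^ i + p ^ j [MOD m] := hi.add hj
    rw [Nat.add_sub_cancel' haq] at h3
    have h4 : m ∣ p ^ i + p ^ j := (Nat.ModEq.dvd_iff h3 dvd_rfl).mp hmq
    rcases le_total i j with hij | hij
    · exact key i j hij h4
    · rw [add_comm] at h4
      exact key j i hij h4
  obtain ⟨T, hT⟩ : ∃ T, T = (units q).filter fun a => P a ∨ (¬ P a ∧ ¬ P (q - a) ∧ 2 * a < q) := ⟨_, rfl⟩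
  have hTu : T ⊆ units q := by
    rw [hT]
    exact Finset.filter_subset _ _
  have hu : ∀ a ∈ units q, 0 < a ∧ a < q ∧ Nat.Coprime a q := by
    intro a ha
    rw [units, mem_filter, mem_range] at ha
    refine ⟨?_, ha⟩
    rcases Nat.eq_zero_or_pos a with rfl | h
    · have := ha.2
      rw [Nat.coprime_zero_left] at this
      omega
    · exact h
  have hTd : ∀ a ∈ T, q - a ∉ T := by
    intro a ha hb
    have h0 := hu a (hTu ha)
    rw [hT, mem_filter] at ha hb
    have h2 : q - (q - a) = a := by omega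
    rw [h2] at hb
    rcases ha.2 with h3 | h3
    · rcases hb.2 with h4 | h4
      · exact hPP a h0.2.1.le h3 h4
      · exact h4.2.1 h3
    · rcases hb.2 with h4 | h4
      · exact h3.2.1 h4
      · omega
  have hcard := card_half hq T hTu hTd
  have h1T : 1 ∈ T := by
    rw [hT, mem_filter, units, mem_filter, mem_range]
    exact ⟨⟨by omega, Nat.coprime_one_left _⟩, Or.inl hP1⟩
  obtain ⟨s, hs⟩ : ∃ s : Finset ℂ, s = insert (Real.pi : ℂ) ((T.erase 1).image fun a : ℕ => Complex.Gamma (a / q)) :=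
    ⟨_, rfl⟩
  have hscard : s.card ≤ Nat.totient q / 2 := by
    have h1 : s.card ≤ (T.erase 1).card + 1 := by
      rw [hs]
      exact (Finset.card_insert_le _ _).trans (Nat.add_le_add_right Finset.card_image_le 1)
    rw [Finset.card_erase_of_mem h1T] at h1
    have h2 : 0 < T.card := Finset.card_pos.mpr ⟨1, h1T⟩
    omega
  refine le_trans ?_ ((trdeg_adjoin_le s).trans (by exact_mod_cast hscard))
  refine trdeg_le_of_alg _ _ ?_
  obtain ⟨L, hL⟩ : ∃ L, L = IntermediateField.adjoin ℚ (s : Set ℂ) := ⟨_, rfl⟩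
  rw [← hL]
  have hsub : ∀ z ∈ s, z ∈ L := by
    intro z hz
    rw [hL]
    exact IntermediateField.subset_adjoin ℚ _ hz
  have hpi : (Real.pi : ℂ) ∈ L := hsub _ (by rw [hs]; exact Finset.mem_insert_self _ _)
  have hodd := gd_odd hpi
  have hvT : ∀ a ∈ T, a ≠ 1 → gd L ((a : ℚ) / q) = 0 := by
    intro a ha ha1
    rw [gd_zero_iff L (hu a (hTu ha)).1 hq0]
    have h1 : Complex.Gamma (a / q) ∈ L := by
      apply hsub
      rw [hs]
      refine Finset.mem_insert_of_mem (Finset.mem_image.mpr ⟨a, Finset.mem_erase.mpr ⟨ha1, ha⟩, rfl⟩)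
    exact isAlgebraic_algebraMap (⟨_, h1⟩ : L)
  have hv1 : gd L ((1 : ℚ) / q) = 0 := by
    have h1 := OddDist.vanish_one tf hodd hp hm0 hn hpm (fun a ha ha1 hpa hj => ?_)
    · rw [← hqn] at h1
      exact h1
    · rw [← hqn] at ha ⊢
      refine hvT a ?_ ha1
      rw [hT, mem_filter, units, mem_filter, mem_range]
      have h2 : Nat.Coprime a m := by
        obtain ⟨j, hj⟩ := hj
        have h3 : Nat.Coprime (p ^ j) m := Nat.Coprime.pow_left _ hpm
        have h4 := hj.gcd_eq
        unfold Nat.Coprime at h3 ⊢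
        rw [h4, h3]
      exact ⟨⟨ha, hcop a hpa h2⟩, Or.inl (by rw [hP]; exact hj)⟩
  have hvT' : ∀ a ∈ T, gd L ((a : ℚ) / q) = 0 := by
    intro a ha
    by_cases ha1 : a = 1
    · rw [ha1, Nat.cast_one]
      exact hv1
    · exact hvT a ha ha1
  have hvu : ∀ a ∈ units q, gd L ((a : ℚ) / q) = 0 := by
    intro a ha
    have h0 := hu a ha
    have hru : q - a ∈ units q := by
      rw [units, mem_filter, mem_range]
      exact ⟨by omega, (Nat.coprime_self_sub_left h0.2.1.le).mpr h0.2.2⟩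
    have hor : a ∈ T ∨ q - a ∈ T := by
      have h2 : q - (q - a) = a := by omega
      rw [hT, mem_filter, mem_filter, h2]
      have h3 := two_mul_ne hq h0.2.2
      by_cases h4 : P a
      · exact Or.inl ⟨ha, Or.inl h4⟩
      · by_cases h5 : P (q - a)
        · exact Or.inr ⟨hru, Or.inl h5⟩
        · rcases Nat.lt_or_ge (2 * a) q with h6 | h6
          · exact Or.inl ⟨ha, Or.inr ⟨h4, h5, h6⟩⟩
          · exact Or.inr ⟨hru, Or.inr ⟨h5, h4, by omega⟩⟩
    rcases hor with h1 | h1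
    · exact hvT' a h1
    · have h2 := hvT' _ h1
      rw [gd_rev hpi h0.2.1.le hq0, neg_eq_zero] at h2
      exact h2
  intro z hz
  rcases hz with hz | ⟨a, ha1, haq, hac, rfl⟩
  · rw [Set.mem_singleton_iff] at hz
    rw [hz]
    exact isAlgebraic_algebraMap (⟨_, hpi⟩ : L)
  · rw [← gd_zero_iff L (by omega) hq0]
    refine hvu a ?_
    rw [units, mem_filter, mem_range]
    exact ⟨by omega, hac⟩

/-- Otherwise all the numbers `Γ(a / q)` are algebraic over `F_q`. -/
theorem alg_all {q : ℕ} (hq : 2 < q) (h : OddDist.MinusOne q) (a : ℕ) (ha : 0 < a) :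
    IsAlgebraic (IntermediateField.adjoin ℚ (gens q)) (Complex.Gamma (a / q)) := by
  have hq0 : 0 < q := by omega
  obtain ⟨L, hL⟩ : ∃ L, L = IntermediateField.adjoin ℚ (gens q) := ⟨_, rfl⟩
  rw [← hL]
  have hsub : ∀ z ∈ gens q, z ∈ L := by
    intro z hz
    rw [hL]
    exact IntermediateField.subset_adjoin ℚ _ hz
  have hpi : (Real.pi : ℂ) ∈ L := hsub _ (Or.inl rfl)
  have hodd := gd_odd hpi
  rw [← gd_zero_iff L ha hq0]
  refine hodd.vanish_all tf q hq0 h (fun b hb => ?_) a
  have h1 : b % q ≡ b [MOD q] := Nat.mod_modEq b q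
  rw [← hodd.congr_nat hq0 h1]
  have h2 : Nat.Coprime (b % q) q := by
    have h4 := h1.gcd_eq
    unfold Nat.Coprime at hb ⊢
    rw [h4, hb]
  have h3 : b % q < q := Nat.mod_lt _ hq0
  have h4 : 0 < b % q := by
    rcases Nat.eq_zero_or_pos (b % q) with h0 | h0
    · rw [h0, Nat.coprime_zero_left] at h2
      omega
    · exact h0
  rw [gd_zero_iff L h4 hq0]
  exact isAlgebraic_algebraMap (⟨_, hsub _ (Or.inr ⟨b % q, h4, by omega, h2, rfl⟩)⟩ : L)

theorem trdeg_all {q : ℕ} (hq : 2 < q) (h : OddDist.MinusOne q) :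
    Algebra.trdeg ℚ (IntermediateField.adjoin ℚ (gens q)) = Algebra.trdeg ℚ (IntermediateField.adjoin ℚ (gensAll q)) := by
  refine le_antisymm ?_ ?_
  · refine trdeg_le_of_alg _ _ fun z hz => ?_
    have h1 : z ∈ IntermediateField.adjoin ℚ (gensAll q) := by
      refine IntermediateField.subset_adjoin ℚ _ ?_
      rcases hz with hz | ⟨a, ha1, haq, _, rfl⟩
      · exact Or.inl hz
      · exact Or.inr ⟨a, ha1, haq, rfl⟩
    exact isAlgebraic_algebraMap (⟨_, h1⟩ : IntermediateField.adjoin ℚ (gensAll q))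
  · refine trdeg_le_of_alg _ _ fun z hz => ?_
    rcases hz with hz | ⟨a, ha1, haq, rfl⟩
    · exact isAlgebraic_algebraMap (⟨z, IntermediateField.subset_adjoin ℚ _ (Or.inl hz)⟩ :
        IntermediateField.adjoin ℚ (gens q))
    · exact alg_all hq h a ha1

end Pool.Agent.D0H21.LR
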