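import Pool.Agent.D0H21.LR.Two

/-!
# The integers `q` such that `-1` is a power of `p` modulo the part of `q` prime to `p`, for all primes `p` dividing `q`, have
density zero

If `q` has two different prime factors which are `3` modulo `4`, then one of them is a square modulo the other one, and `-1` is
not. The proof that the reciprocals of the primes `3` modulo `4` are not summable is copied from the starting file
`Pool.Agent.H256R3.NT` (there for `1` modulo `4`).
-/

set_option autoImplicit false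

open Filter Topology Set

namespace Pool.Agent.D0H21.LR

open ArithmeticFunction ArithmeticFunction.vonMangoldt

/-- The reciprocals of the primes congruent to `3` modulo `4` are not summable. -/
theorem not_summable_34 :
    ¬ Summable (fun n : ℕ => if n.Prime ∧ ((n : ZMod 4) = 3) then (1 : ℝ) / n else 0) := by
  intro H
  have hunit : IsUnit (3 : ZMod 4) := by decide
  obtain ⟨C, hC⟩ := LSeries_residueClass_lower_bound (q := 4) (a := 3) hunit
  have hS2 := summable_residueClass_non_primes_div (q := 4) (3 : ZMod 4)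
  set bound : ℕ → ℝ := fun n =>
    (if n.Prime ∧ ((n : ZMod 4) = 3) then (1 : ℝ) / n else 0) +
      (if n.Prime then 0 else residueClass (3 : ZMod 4) n) / n with hbound
  have hsum : Summable bound := H.add hS2
  -- the functions
  set x : ℕ → ℝ := fun j => 1 + 1 / ((j : ℝ) + 1) with hx
  have hx1 : ∀ j, 1 < x j := by intro j; simp only [hx]; have : (0:ℝ) < 1 / ((j:ℝ)+1) := by positivity
                                linarith
  have hx2 : ∀ j, x j ≤ 2 := by
    intro j; simp only [hx]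
    have : 1 / ((j:ℝ)+1) ≤ 1 := by
      rw [div_le_one (by positivity)]; have := Nat.cast_nonneg (α := ℝ) j; linarith
    linarith
  have hxlim : Tendsto (fun j => x j - 1) atTop (𝓝 0) := by
    have := tendsto_one_div_add_atTop_nhds_zero_nat (𝕜 := ℝ)
    simpa [hx] using this
  let f : ℕ → ℕ → ℝ := fun j n => (x j - 1) * (residueClass (3 : ZMod 4) n / (n : ℝ) ^ (x j))
  have hf_bound : ∀ j n, ‖f j n‖ ≤ bound n := by
    intro j n
    have hpos : 0 < x j - 1 := by linarith [hx1 j]
    have hnn : 0 ≤ residueClass (3 : ZMod 4) n := residueClass_nonneg _ n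
    have hn0 : 0 ≤ (n:ℝ) ^ (x j) := Real.rpow_nonneg (Nat.cast_nonneg n) _
    have hfn : 0 ≤ f j n := mul_nonneg hpos.le (div_nonneg hnn hn0)
    rw [Real.norm_of_nonneg hfn]
    rcases Nat.eq_zero_or_pos n with rfl | hn
    · simp [f, hbound]
    have hnR : (0:ℝ) < n := by exact_mod_cast hn
    have hn1 : (1:ℝ) ≤ n := by exact_mod_cast hn
    by_cases hp : n.Prime
    · by_cases h3 : (n : ZMod 4) = 3
      · have hrc : residueClass (3 : ZMod 4) n = Real.log n := by
          simp [residueClass, Set.indicator, h3, vonMangoldt_apply_prime hp]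
        have hb : bound n = 1 / n := by simp [hbound, hp, h3]
        rw [hb]
        simp only [f, hrc]
        have e1 : (n:ℝ) ^ (x j) = n * (n:ℝ) ^ (x j - 1) := by
          rw [← Real.rpow_one_add' hnR.le (by linarith)]; congr 1; ring
        rw [e1]
        have hlogn : 0 ≤ Real.log n := Real.log_nonneg hn1
        have e2 : (x j - 1) * Real.log n ≤ (n:ℝ) ^ (x j - 1) := by
          rw [Real.rpow_def_of_pos hnR]
          have := Real.add_one_le_exp (Real.log n * (x j - 1))
          nlinarith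
        have hpos2 : 0 < (n:ℝ) ^ (x j - 1) := Real.rpow_pos_of_pos hnR _
        rw [← mul_div_assoc, div_le_div_iff₀ (by positivity) hnR]
        nlinarith
      · have hrc : residueClass (3 : ZMod 4) n = 0 := by
          simp [residueClass, Set.indicator, h3]
        simp only [f, hrc]
        simp [hbound, hp, h3]
    · have hb : bound n = residueClass (3 : ZMod 4) n / n := by simp [hbound, hp]
      rw [hb]
      simp only [f]
      have e1 : (n:ℝ) ≤ (n:ℝ) ^ (x j) := by
        conv_lhs => rw [← Real.rpow_one (n:ℝ)]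
        exact Real.rpow_le_rpow_of_exponent_le hn1 (hx1 j).le
      have e2 : residueClass (3 : ZMod 4) n / (n : ℝ) ^ (x j) ≤ residueClass (3 : ZMod 4) n / n :=
        div_le_div_of_nonneg_left hnn hnR e1
      have e3 : x j - 1 ≤ 1 := by linarith [hx2 j]
      have e4 : 0 ≤ residueClass (3 : ZMod 4) n / (n : ℝ) ^ (x j) := div_nonneg hnn hn0
      nlinarith
  have hf_lim : ∀ n, Tendsto (fun j => f j n) atTop (𝓝 0) := by
    intro n
    have hnn : 0 ≤ residueClass (3 : ZMod 4) n := residueClass_nonneg _ n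
    rcases Nat.eq_zero_or_pos n with rfl | hn
    · simp [f]
    have hnR : (0:ℝ) < n := by exact_mod_cast hn
    have hn1 : (1:ℝ) ≤ n := by exact_mod_cast hn
    have up : ∀ j, f j n ≤ (x j - 1) * (residueClass (3 : ZMod 4) n / n) := by
      intro j
      have hpos : 0 < x j - 1 := by linarith [hx1 j]
      have e1 : (n:ℝ) ≤ (n:ℝ) ^ (x j) := by
        conv_lhs => rw [← Real.rpow_one (n:ℝ)]
        exact Real.rpow_le_rpow_of_exponent_le hn1 (hx1 j).le
      exact mul_le_mul_of_nonneg_left (div_le_div_of_nonneg_left hnn hnR e1) hpos.le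
    have lo : ∀ j, 0 ≤ f j n := by
      intro j
      have hpos : 0 < x j - 1 := by linarith [hx1 j]
      exact mul_nonneg hpos.le (div_nonneg hnn (Real.rpow_nonneg (Nat.cast_nonneg n) _))
    have l2 : Tendsto (fun j => (x j - 1) * (residueClass (3 : ZMod 4) n / n)) atTop (𝓝 0) := by
      have := hxlim.mul_const (residueClass (3 : ZMod 4) n / n)
      simpa using this
    exact squeeze_zero lo up l2
  have hT := tendsto_tsum_of_dominated_convergence (f := f) (g := fun _ => (0:ℝ)) hsum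
    hf_lim (Filter.Eventually.of_forall hf_bound)
  simp only [tsum_zero] at hT
  have hlow : ∀ j, (1/2 : ℝ) - C * (x j - 1) ≤ ∑' n, f j n := by
    intro j
    have hpos : 0 < x j - 1 := by linarith [hx1 j]
    have h1 := hC (x := x j) ⟨hx1 j, hx2 j⟩
    have ht : ((Nat.totient 4 : ℕ) : ℝ)⁻¹ = 1/2 := by
      have : Nat.totient 4 = 2 := by decide
      rw [this]; norm_num
    rw [ht] at h1
    have h2 : ∑' n, f j n = (x j - 1) * ∑' n, residueClass (3 : ZMod 4) n / (n : ℝ) ^ (x j) := by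
      rw [← tsum_mul_left]
    rw [h2]
    have h3 := mul_le_mul_of_nonneg_left h1 hpos.le
    have h4 : (x j - 1) * (1 / 2 / (x j - 1) - C) = 1/2 - C * (x j - 1) := by
      field_simp
    linarith [h4 ▸ h3]
  have hl2 : Tendsto (fun j => (1/2 : ℝ) - C * (x j - 1)) atTop (𝓝 (1/2)) := by
    have := (hxlim.const_mul C).const_sub (1/2 : ℝ)
    simpa using this
  have := le_of_tendsto_of_tendsto' hl2 hT hlow
  norm_num at this



/-- primes `3` modulo `4` with small product of `1 - 1 / p`, outside a given finite set -/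
lemma exists_Q (E : Finset ℕ) {ε : ℝ} (hε : 0 < ε) : ∃ Q : Finset ℕ, (∀ p ∈ Q, p.Prime ∧ p % 4 = 3 ∧ p ∉ E) ∧
    ∏ p ∈ Q, (1 - 1 / (p : ℝ)) ≤ ε := by
  classical
  have h1 := not_summable_34
  rw [not_summable_iff_tendsto_nat_atTop_of_nonneg] at h1
  · have h2 := (tendsto_atTop.mp h1 (- Real.log ε + E.card)).exists
    obtain ⟨N, hN⟩ := h2
    obtain ⟨Q, hQ⟩ : ∃ Q : Finset ℕ, Q = ((Finset.range N).filter fun n : ℕ => n.Prime ∧ ((n : ZMod 4) = 3)) \ E := ⟨_, rfl⟩
    refine ⟨Q, ?_, ?_⟩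
    · intro p hp
      rw [hQ, Finset.mem_sdiff, Finset.mem_filter] at hp
      refine ⟨hp.1.2.1, ?_, hp.2⟩
      have h3 : (p : ZMod 4) = ((3 : ℕ) : ZMod 4) := by simpa using hp.1.2.2
      have h4 := (ZMod.natCast_eq_natCast_iff _ _ _).mp h3
      unfold Nat.ModEq at h4
      omega
    · have h3 : ∑ n ∈ (Finset.range N).filter (fun n : ℕ => n.Prime ∧ ((n : ZMod 4) = 3)), 1 / (n : ℝ) ≤
          ∑ p ∈ Q, 1 / (p : ℝ) + E.card := by
        have h4 : ∑ n ∈ (Finset.range N).filter (fun n : ℕ => n.Prime ∧ ((n : ZMod 4) = 3)), 1 / (n : ℝ) ≤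
            ∑ n ∈ Q ∪ E, 1 / (n : ℝ) := by
          refine Finset.sum_le_sum_of_subset_of_nonneg ?_ (fun _ _ _ => by positivity)
          intro x hx
          rw [hQ, Finset.mem_union, Finset.mem_sdiff]
          tauto
        have h5 : ∑ n ∈ Q ∪ E, 1 / (n : ℝ) ≤ ∑ n ∈ Q, 1 / (n : ℝ) + ∑ n ∈ E, 1 / (n : ℝ) := by
          rw [← Finset.sum_union_inter]
          have : 0 ≤ ∑ n ∈ Q ∩ E, 1 / (n : ℝ) := Finset.sum_nonneg fun _ _ => by positivity
          linarith
        have h6 : ∑ n ∈ E, 1 / (n : ℝ) ≤ E.card := by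
          calc ∑ n ∈ E, 1 / (n : ℝ) ≤ ∑ n ∈ E, (1 : ℝ) := by
                refine Finset.sum_le_sum fun n _ => ?_
                rcases Nat.eq_zero_or_pos n with rfl | hn
                · simp
                · rw [div_le_one (by exact_mod_cast hn)]
                  exact_mod_cast hn
            _ = E.card := by simp
        linarith
      rw [Finset.sum_filter] at h3
      have h4 : - Real.log ε ≤ ∑ p ∈ Q, 1 / (p : ℝ) := by linarith
      calc ∏ p ∈ Q, (1 - 1 / (p : ℝ)) ≤ ∏ p ∈ Q, Real.exp (-(1 / (p : ℝ))) := by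
            refine Finset.prod_le_prod (fun p hp => ?_) (fun p _ => ?_)
            · rw [hQ, Finset.mem_sdiff, Finset.mem_filter] at hp
              have h5 : (1 : ℝ) ≤ p := by exact_mod_cast hp.1.2.1.one_lt.le
              have h6 : 1 / (p : ℝ) ≤ 1 := by
                rw [div_le_one (by linarith)]
                exact h5
              linarith
            · have := Real.add_one_le_exp (-(1 / (p : ℝ)))
              linarith
        _ = Real.exp (-∑ p ∈ Q, 1 / (p : ℝ)) := by
            rw [← Real.exp_sum, Finset.sum_neg_distrib]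
        _ ≤ Real.exp (Real.log ε) := by
            rw [Real.exp_le_exp]
            linarith
        _ = ε := Real.exp_log hε
  · intro n
    split_ifs
    · positivity
    · exact le_rfl

lemma prod_ne_zero {Q : Finset ℕ} (hQ : ∀ p ∈ Q, p.Prime) : ∏ p ∈ Q, p ≠ 0 :=
  Finset.prod_ne_zero_iff.mpr fun p hp => (hQ p hp).ne_zero

lemma totient_prod (Q : Finset ℕ) (hQ : ∀ p ∈ Q, p.Prime) :
    ((Nat.totient (∏ p ∈ Q, p) : ℕ) : ℝ) = ((∏ p ∈ Q, p : ℕ) : ℝ) * ∏ p ∈ Q, (1 - 1 / (p : ℝ)) := by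
  classical
  induction Q using Finset.induction_on with
  | empty => simp
  | insert a s ha ih =>
    have hs : ∀ p ∈ s, p.Prime := fun p hp => hQ p (Finset.mem_insert_of_mem hp)
    have hap := hQ a (Finset.mem_insert_self _ _)
    have hc : Nat.Coprime a (∏ p ∈ s, p) := by
      refine Nat.Coprime.prod_right fun p hp => ?_
      rw [Nat.coprime_primes hap (hs p hp)]
      rintro rfl
      exact ha hp
    rw [Finset.prod_insert ha, Finset.prod_insert ha, Nat.totient_mul hc, Nat.totient_prime hap, Nat.cast_mul, ih hs,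
      Nat.cast_sub hap.one_lt.le]
    have : (a : ℝ) ≠ 0 := by exact_mod_cast hap.ne_zero
    push_cast
    field_simp

lemma count_le (Q : Finset ℕ) (hQ : ∀ p ∈ Q, p.Prime) (X : ℕ) :
    ((((Finset.range X).filter fun n => ∀ p ∈ Q, ¬ p ∣ n).card : ℕ) : ℝ) ≤
      X * ∏ p ∈ Q, (1 - 1 / (p : ℝ)) + Nat.totient (∏ p ∈ Q, p) := by
  classical
  have hN := prod_ne_zero hQ
  have hN0 : (0 : ℝ) < ((∏ p ∈ Q, p : ℕ) : ℝ) := by
    have : 0 < ∏ p ∈ Q, p := Nat.pos_of_ne_zero hN
    exact_mod_cast this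
  have h1 := Nat.Ico_filter_coprime_le 0 X hN
  rw [zero_add] at h1
  have h2 : ((Finset.range X).filter fun n => ∀ p ∈ Q, ¬ p ∣ n) ⊆
      (Finset.Ico 0 X).filter fun n => (∏ p ∈ Q, p).Coprime n := by
    intro n hn
    rw [Finset.mem_filter, Finset.mem_range] at hn
    rw [Finset.mem_filter, Finset.mem_Ico]
    refine ⟨⟨Nat.zero_le _, hn.1⟩, ?_⟩
    exact Nat.Coprime.prod_left fun p hp => (Nat.Prime.coprime_iff_not_dvd (hQ p hp)).mpr (hn.2 p hp)
  have h3 := (Finset.card_le_card h2).trans h1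
  have h4 : ((((Finset.range X).filter fun n => ∀ p ∈ Q, ¬ p ∣ n).card : ℕ) : ℝ) ≤
      (Nat.totient (∏ p ∈ Q, p) : ℝ) * ((X : ℝ) / ((∏ p ∈ Q, p : ℕ) : ℝ) + 1) := by
    calc ((((Finset.range X).filter fun n => ∀ p ∈ Q, ¬ p ∣ n).card : ℕ) : ℝ) ≤
        ((Nat.totient (∏ p ∈ Q, p) * (X / (∏ p ∈ Q, p) + 1) : ℕ) : ℝ) := by exact_mod_cast h3
      _ = (Nat.totient (∏ p ∈ Q, p) : ℝ) * (((X / (∏ p ∈ Q, p) : ℕ) : ℝ) + 1) := by push_cast; ring
      _ ≤ _ := by
        gcongr
        exact Nat.cast_div_le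
  refine h4.trans (le_of_eq ?_)
  have h5 := totient_prod Q hQ
  rw [mul_add, mul_one]
  congr 1
  rw [h5]
  field_simp

/-- the square criterion -/
lemma not_of_isSquare {q p r : ℕ} (hp : p.Prime) (hr : r.Prime) (hpr : p ≠ r) (hpq : p ∣ q) (hrq : r ∣ q)
    (hr4 : r % 4 = 3) (hs : IsSquare ((p : ZMod r))) : ¬ OddDist.MinusOne q := by
  intro h
  have : Fact p.Prime := ⟨hp⟩
  have : Fact r.Prime := ⟨hr⟩
  obtain ⟨k, hk⟩ := h p hp hpq
  have h1 : r ∣ q / p ^ padicValNat p q := by
    have h2 : q = p ^ padicValNat p q * (q / p ^ padicValNat p q) := (Nat.mul_div_cancel' pow_padicValNat_dvd).symm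
    have h3 : r ∣ p ^ padicValNat p q * (q / p ^ padicValNat p q) := by
      rw [← h2]
      exact hrq
    rcases (Nat.Prime.dvd_mul hr).mp h3 with h4 | h4
    · exact absurd ((Nat.prime_dvd_prime_iff_eq hr hp).mp (hr.dvd_of_dvd_pow h4)) (Ne.symm hpr)
    · exact h4
  have h2 : ((p ^ k + 1 : ℕ) : ZMod r) = 0 := (ZMod.natCast_eq_zero_iff _ _).mpr (h1.trans hk)
  push_cast at h2
  have h3 : IsSquare (-1 : ZMod r) := by
    have h4 : (-1 : ZMod r) = (p : ZMod r) ^ k := by
      rw [eq_comm, ← add_eq_zero_iff_eq_neg]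
      exact h2
    rw [h4]
    exact hs.pow k
  exact (ZMod.exists_sq_eq_neg_one_iff.mp h3) hr4

/-- two different prime factors which are `3` modulo `4` -/
lemma not_of_two {q p r : ℕ} (hp : p.Prime) (hr : r.Prime) (hpr : p ≠ r) (hpq : p ∣ q) (hrq : r ∣ q)
    (hp4 : p % 4 = 3) (hr4 : r % 4 = 3) : ¬ OddDist.MinusOne q := by
  have : Fact p.Prime := ⟨hp⟩
  have : Fact r.Prime := ⟨hr⟩
  have h1 : legendreSym r p = - legendreSym p r := legendreSym.quadratic_reciprocity_three_mod_four hp4 hr4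
  have hp0 : ((p : ℤ) : ZMod r) ≠ 0 := by
    push_cast
    rw [Ne, ZMod.natCast_eq_zero_iff]
    intro h
    exact hpr ((Nat.prime_dvd_prime_iff_eq hr hp).mp h).symm
  have hr0 : ((r : ℤ) : ZMod p) ≠ 0 := by
    push_cast
    rw [Ne, ZMod.natCast_eq_zero_iff]
    intro h
    exact hpr ((Nat.prime_dvd_prime_iff_eq hp hr).mp h)
  rcases legendreSym.eq_one_or_neg_one r hp0 with h2 | h2
  · refine not_of_isSquare hp hr hpr hpq hrq hr4 ?_
    have := (legendreSym.eq_one_iff r hp0).mp h2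
    exact_mod_cast this
  · have h3 : legendreSym p r = 1 := by
      rw [h2] at h1
      omega
    refine not_of_isSquare hr hp hpr.symm hrq hpq hp4 ?_
    have := (legendreSym.eq_one_iff p hr0).mp h3
    exact_mod_cast this

/-- The exceptional integers have density zero. -/
theorem density_zero :
    Tendsto (fun X : ℕ => (({q : ℕ | q < X ∧ OddDist.MinusOne q}.ncard : ℕ) : ℝ) / X) atTop (𝓝 0) := by
  classical
  rw [Metric.tendsto_atTop]
  intro ε hε
  obtain ⟨Q, hQ, hQε⟩ := exists_Q ∅ (show (0 : ℝ) < ε / 4 by positivity)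
  have hε2 : (0 : ℝ) < ε / (4 * (Q.card + 1)) := by positivity
  have hch : ∀ r : ℕ, ∃ Q' : Finset ℕ, (∀ p ∈ Q', p.Prime ∧ p % 4 = 3 ∧ p ∉ ({r} : Finset ℕ)) ∧
    ∏ p ∈ Q', (1 - 1 / (p : ℝ)) ≤ ε / (4 * (Q.card + 1)) := fun r => exists_Q {r} hε2
  choose Q' hQ' hQ'ε using hch
  obtain ⟨C, hC⟩ : ∃ C : ℝ, C = (Nat.totient (∏ p ∈ Q, p) : ℝ) + ∑ r ∈ Q, (Nat.totient (∏ p ∈ Q' r, p) : ℝ) := ⟨_, rfl⟩
  have hC0 : 0 ≤ C := by
    rw [hC]
    positivity
  obtain ⟨N, hN⟩ := exists_nat_gt (4 * C / ε)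
  refine ⟨N + 1, fun X hX => ?_⟩
  have hX0 : (0 : ℝ) < X := by
    have : 0 < X := by omega
    exact_mod_cast this
  have hNX : (N : ℝ) ≤ X := by
    have : N ≤ X := by omega
    exact_mod_cast this
  have hCX : C ≤ ε / 4 * X := by
    have h1 : 4 * C / ε < X := by linarith
    rw [div_lt_iff₀ hε] at h1
    linarith
  obtain ⟨A, hA⟩ : ∃ A : Finset ℕ → Finset ℕ, A = fun R => (Finset.range X).filter fun n => ∀ p ∈ R, ¬ p ∣ n := ⟨_, rfl⟩
  have hsub : {q : ℕ | q < X ∧ OddDist.MinusOne q} ⊆ ((A Q ∪ Q.biUnion fun r => A (Q' r) : Finset ℕ) : Set ℕ) := by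
    rintro q ⟨hqX, hq⟩
    rw [Finset.mem_coe, Finset.mem_union, Finset.mem_biUnion]
    by_cases h1 : ∀ p ∈ Q, ¬ p ∣ q
    · left
      rw [hA]
      simp only [Finset.mem_filter, Finset.mem_range]
      exact ⟨hqX, h1⟩
    · right
      push Not at h1
      obtain ⟨r, hr, hrq⟩ := h1
      refine ⟨r, hr, ?_⟩
      rw [hA]
      simp only [Finset.mem_filter, Finset.mem_range]
      refine ⟨hqX, fun p hp hpq => ?_⟩
      have h2 := hQ r hr
      have h3 := hQ' r p hp
      refine not_of_two h3.1 h2.1 ?_ hpq hrq h3.2.1 h2.2.1 hq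
      rintro rfl
      exact h3.2.2 (Finset.mem_singleton_self _)
  have h1 : (({q : ℕ | q < X ∧ OddDist.MinusOne q}.ncard : ℕ) : ℝ) ≤
      ((A Q).card : ℝ) + ∑ r ∈ Q, ((A (Q' r)).card : ℝ) := by
    have h2 := Set.ncard_le_ncard hsub (Finset.finite_toSet _)
    rw [Set.ncard_coe_finset] at h2
    have h3 := (h2.trans (Finset.card_union_le _ _)).trans (Nat.add_le_add_left Finset.card_biUnion_le _)
    exact_mod_cast h3
  have h2 : ((A Q).card : ℝ) ≤ X * (ε / 4) + Nat.totient (∏ p ∈ Q, p) := by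
    have h3 := count_le Q (fun p hp => (hQ p hp).1) X
    rw [hA]
    refine h3.trans ?_
    gcongr
  have h3 : ∀ r ∈ Q, ((A (Q' r)).card : ℝ) ≤ X * (ε / (4 * (Q.card + 1))) + Nat.totient (∏ p ∈ Q' r, p) := by
    intro r _
    have h4 := count_le (Q' r) (fun p hp => (hQ' r p hp).1) X
    rw [hA]
    refine h4.trans ?_
    gcongr
    exact hQ'ε r
  have h4 := Finset.sum_le_sum h3
  rw [Finset.sum_add_distrib, Finset.sum_const, nsmul_eq_mul] at h4
  have h5 : (Q.card : ℝ) * (X * (ε / (4 * (Q.card + 1)))) ≤ X * (ε / 4) := by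
    have h6 : (Q.card : ℝ) * (X * (ε / (4 * (Q.card + 1)))) = X * (ε / 4) * (Q.card / (Q.card + 1)) := by
      field_simp
    rw [h6]
    have h7 : (Q.card : ℝ) / (Q.card + 1) ≤ 1 := by
      rw [div_le_one (by positivity)]
      linarith
    have h8 : 0 ≤ X * (ε / 4) := by positivity
    nlinarith
  rw [dist_zero_right, Real.norm_of_nonneg (by positivity), div_lt_iff₀ hX0]
  nlinarith

end Pool.Agent.D0H21.LR
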