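import Mathlib

/-!
# The multiplication formula of Gauss for the Gamma function, up to the value of the constant

For `n ≥ 1` and real `x > 0`, `∏_(k < n) Γ((x + k) / n) = n ^ (1 - x) (∏_(k < n) Γ((1 + k) / n)) Γ(x)`; and the square of the
constant is `π ^ (n - 1)` divided by a product of sines. The first formula follows from the theorem of Bohr and Mollerup.
-/

set_option autoImplicit false

open Real Set Finset

namespace Pool.Agent.D0H21.LR

/-- the product of the values of the Gamma function -/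
noncomputable def prodG (n : ℕ) (x : ℝ) : ℝ := ∏ k ∈ Finset.range n, Real.Gamma ((x + k) / n)

lemma prodG_pos {n : ℕ} (hn : 0 < n) {x : ℝ} (hx : 0 < x) : 0 < prodG n x := by
  refine Finset.prod_pos fun k _ => Real.Gamma_pos_of_pos ?_
  positivity

lemma prodG_add_one {n : ℕ} (hn : 0 < n) {x : ℝ} (hx : 0 < x) : prodG n (x + 1) = x / n * prodG n x := by
  have hn0 : (n : ℝ) ≠ 0 := by positivity
  unfold prodG
  obtain ⟨m, rfl⟩ : ∃ m, n = m + 1 := ⟨n - 1, by omega⟩
  rw [Finset.prod_range_succ, Finset.prod_range_succ' (fun k : ℕ => Real.Gamma ((x + k) / ((m + 1 : ℕ) : ℝ)))]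
  have h1 : Real.Gamma ((x + 1 + (m : ℕ)) / ((m + 1 : ℕ) : ℝ)) = x / ((m + 1 : ℕ) : ℝ) *
      Real.Gamma (x / ((m + 1 : ℕ) : ℝ)) := by
    have h2 : (x + 1 + (m : ℕ)) / ((m + 1 : ℕ) : ℝ) = x / ((m + 1 : ℕ) : ℝ) + 1 := by
      field_simp
      push_cast
      ring
    rw [h2, Real.Gamma_add_one (by positivity)]
  rw [h1, Nat.cast_zero, add_zero]
  have h3 : ∏ k ∈ Finset.range m, Real.Gamma ((x + 1 + (k : ℕ)) / ((m + 1 : ℕ) : ℝ)) =
      ∏ k ∈ Finset.range m, Real.Gamma ((x + ((k + 1 : ℕ) : ℝ)) / ((m + 1 : ℕ) : ℝ)) := by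
    refine Finset.prod_congr rfl fun k _ => ?_
    congr 2
    push_cast
    ring
  rw [h3]
  ring

lemma convex_comp (a b : ℝ) (ha : 0 < a) (hb : 0 ≤ b) :
    ConvexOn ℝ (Ioi (0 : ℝ)) (fun x => Real.log (Real.Gamma (a * x + b))) := by
  have h := Real.convexOn_log_Gamma
  refine ⟨convex_Ioi _, fun x hx y hy s t hs ht hst => ?_⟩
  have hx' : 0 < a * x + b := by
    have := mul_pos ha hx
    linarith
  have hy' : 0 < a * y + b := by
    have := mul_pos ha hy
    linarith
  have h2 := h.2 hx' hy' hs ht hst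
  have h3 : a * (s • x + t • y) + b = s • (a * x + b) + t • (a * y + b) := by
    simp only [smul_eq_mul]
    have : b = (s + t) * b := by rw [hst, one_mul]
    calc a * (s * x + t * y) + b = a * (s * x + t * y) + (s + t) * b := by rw [← this]
      _ = _ := by ring
  show Real.log (Real.Gamma (a * (s • x + t • y) + b)) ≤ _
  rw [h3]
  exact h2

/-- The multiplication formula. -/
theorem prodG_eq {n : ℕ} (hn : 0 < n) {x : ℝ} (hx : 0 < x) :
    prodG n x = (n : ℝ) ^ (1 - x) * prodG n 1 * Real.Gamma x := by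
  have hn0 : (0 : ℝ) < n := by positivity
  have hc := prodG_pos hn one_pos
  have key : EqOn (fun x => (n : ℝ) ^ (x - 1) * prodG n x / prodG n 1) Real.Gamma (Ioi 0) := by
    refine Real.eq_Gamma_of_log_convex ?_ ?_ ?_ ?_
    · have h1 : ConvexOn ℝ (Ioi (0 : ℝ)) (fun x => (∑ k ∈ Finset.range n,
          Real.log (Real.Gamma ((1 / n : ℝ) * x + k / n))) + (x * Real.log n + (- Real.log n - Real.log (prodG n 1)))) := by
        refine ConvexOn.add ?_ ?_
        · have h2 : ∀ s : Finset ℕ, ConvexOn ℝ (Ioi (0 : ℝ)) (fun x => ∑ k ∈ s,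
              Real.log (Real.Gamma ((1 / n : ℝ) * x + k / n))) := by
            intro s
            induction s using Finset.induction_on with
            | empty => simpa using convexOn_const (0 : ℝ) (convex_Ioi (0 : ℝ))
            | insert a s ha ih =>
              simp only [Finset.sum_insert ha]
              exact (convex_comp _ _ (by positivity) (by positivity)).add ih
          exact h2 _
        · refine ConvexOn.add ?_ (convexOn_const _ (convex_Ioi (0 : ℝ)))
          refine ⟨convex_Ioi _, fun x _ y _ s t _ _ _ => le_of_eq ?_⟩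
          simp only [smul_eq_mul]
          ring
      refine h1.congr ?_
      intro y hy
      have hy' : (0 : ℝ) < y := hy
      have h4 := prodG_pos hn hy'
      show _ = Real.log ((n : ℝ) ^ (y - 1) * prodG n y / prodG n 1)
      rw [Real.log_div (by positivity) hc.ne', Real.log_mul (by positivity) h4.ne', Real.log_rpow hn0]
      have h5 : Real.log (prodG n y) = ∑ k ∈ Finset.range n, Real.log (Real.Gamma ((1 / n : ℝ) * y + k / n)) := by
        unfold prodG
        rw [Real.log_prod]
        · refine Finset.sum_congr rfl fun k _ => ?_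
          congr 2
          ring
        · intro k _
          exact (Real.Gamma_pos_of_pos (by positivity)).ne'
      rw [h5]
      ring
    · intro y hy
      show (n : ℝ) ^ (y + 1 - 1) * prodG n (y + 1) / prodG n 1 = y * ((n : ℝ) ^ (y - 1) * prodG n y / prodG n 1)
      rw [prodG_add_one hn hy]
      have h6 : (n : ℝ) ^ (y + 1 - 1) = (n : ℝ) ^ (y - 1) * n := by
        rw [show y + 1 - 1 = (y - 1) + 1 by ring, Real.rpow_add hn0, Real.rpow_one]
      rw [h6]
      field_simp
    · intro y hy
      have h4 := prodG_pos hn hy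
      positivity
    · show (n : ℝ) ^ ((1 : ℝ) - 1) * prodG n 1 / prodG n 1 = 1
      rw [sub_self, Real.rpow_zero, one_mul, div_self hc.ne']
  have h7 := key (show x ∈ Set.Ioi (0 : ℝ) from hx)
  simp only at h7
  rw [← h7]
  have h8 : (n : ℝ) ^ (1 - x) * (n : ℝ) ^ (x - 1) = 1 := by
    rw [← Real.rpow_add hn0]
    simp
  field_simp
  rw [mul_assoc, h8, mul_one]

/-- The square of the constant. -/
theorem prodG_one_sq {n : ℕ} (hn : 0 < n) :
    prodG n 1 ^ 2 = ∏ k ∈ Finset.range (n - 1), (π / Real.sin (π * ((k + 1 : ℕ) / n : ℝ))) := by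
  have hn0 : (0 : ℝ) < n := by positivity
  obtain ⟨m, rfl⟩ : ∃ m, n = m + 1 := ⟨n - 1, by omega⟩
  have h1 : prodG (m + 1) 1 = ∏ k ∈ Finset.range m, Real.Gamma (((k + 1 : ℕ) : ℝ) / ((m + 1 : ℕ) : ℝ)) := by
    unfold prodG
    rw [Finset.prod_range_succ]
    have h2 : ((1 : ℝ) + m) / ((m + 1 : ℕ) : ℝ) = 1 := by
      push_cast
      rw [add_comm]
      exact div_self (by positivity)
    rw [h2, Real.Gamma_one, mul_one]
    refine Finset.prod_congr rfl fun k _ => ?_
    congr 2
    push_cast
    ring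
  have h3 : prodG (m + 1) 1 = ∏ k ∈ Finset.range m, Real.Gamma (1 - ((k + 1 : ℕ) : ℝ) / ((m + 1 : ℕ) : ℝ)) := by
    rw [h1, ← Finset.prod_range_reflect]
    refine Finset.prod_congr rfl fun k hk => ?_
    rw [Finset.mem_range] at hk
    congr 1
    have h4 : m - 1 - k + 1 = m - k := by omega
    rw [h4, Nat.cast_sub hk.le]
    field_simp
    push_cast
    ring
  rw [sq]
  nth_rewrite 1 [h1]
  rw [h3, ← Finset.prod_mul_distrib]
  refine Finset.prod_congr rfl fun k _ => ?_
  exact Real.Gamma_mul_Gamma_one_sub _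

end Pool.Agent.D0H21.LR
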