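import Pool.Agent.D0H21.LR.Char

/-!
# Selection of arguments which determine an odd distribution
-/

set_option autoImplicit false

open Finset

namespace Pool.Agent.D0H21.LR

open DirichletCharacter

/-- homomorphisms to the complex numbers separate the points of a torsion-free group -/
lemma exists_hom {U : Type*} [AddCommGroup U] (hU : TF U) {u : U} (hu : u ≠ 0) : ∃ ψ : U →+ ℂ, ψ u ≠ 0 := by
  have hinj : Function.Injective (LinearMap.toSpanSingleton ℤ U u) := by
    rw [← LinearMap.ker_eq_bot, LinearMap.ker_eq_bot']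
    intro z hz
    rw [LinearMap.toSpanSingleton_apply] at hz
    by_contra h0
    rcases z.eq_nat_or_neg with ⟨n, rfl | rfl⟩
    · rw [natCast_zsmul] at hz
      refine hu (hU n u ?_ hz)
      rcases Nat.eq_zero_or_pos n with rfl | h
      · exact absurd rfl h0
      · exact h
    · rw [neg_smul, natCast_zsmul, neg_eq_zero] at hz
      refine hu (hU n u ?_ hz)
      rcases Nat.eq_zero_or_pos n with rfl | h
      · exact absurd rfl h0
      · exact h
  obtain ⟨f, hf⟩ := (Module.Baer.of_divisible (A := ℂ)).extension_property _ hinj (LinearMap.toSpanSingleton ℤ ℂ 1)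
  refine ⟨f.toAddMonoidHom, ?_⟩
  have h1 := LinearMap.congr_fun hf 1
  simp only [LinearMap.comp_apply, LinearMap.toSpanSingleton_apply, one_smul] at h1
  show f u ≠ 0
  rw [h1]
  exact one_ne_zero

lemma OddDist.comp {U V : Type*} [AddCommGroup U] [AddCommGroup V] {g : ℚ → U} (h : OddDist g) (ψ : U →+ V) :
    OddDist (fun x => ψ (g x)) := by
  refine ⟨fun x => ?_, fun x => ?_, fun n hn x => ?_⟩
  · show ψ (g (x + 1)) = ψ (g x)
    rw [h.per]
  · show ψ (g (-x)) = - ψ (g x)
    rw [h.odd, map_neg]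
  · show ∑ k ∈ range n, ψ (g ((x + k) / n)) = ψ (g x)
    rw [← map_sum, h.dist n hn]

/-- the space of complex odd distributions which vanish on a given set -/
def VV (Z : Set ℚ) : Submodule ℂ (ℚ → ℂ) where
  carrier := {v | OddDist v ∧ ∀ z ∈ Z, v z = 0}
  add_mem' := by
    rintro a b ⟨ha, ha'⟩ ⟨hb, hb'⟩
    refine ⟨⟨fun x => ?_, fun x => ?_, fun n hn x => ?_⟩, fun z hz => ?_⟩
    · simp only [Pi.add_apply, ha.per, hb.per]
    · simp only [Pi.add_apply, ha.odd, hb.odd]
      ring
    · simp only [Pi.add_apply, Finset.sum_add_distrib, ha.dist n hn, hb.dist n hn]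
    · simp only [Pi.add_apply, ha' z hz, hb' z hz, add_zero]
  zero_mem' := by
    refine ⟨⟨fun x => rfl, fun x => ?_, fun n hn x => ?_⟩, fun z _ => rfl⟩
    · simp
    · simp
  smul_mem' := by
    rintro c a ⟨ha, ha'⟩
    refine ⟨⟨fun x => ?_, fun x => ?_, fun n hn x => ?_⟩, fun z hz => ?_⟩
    · simp only [Pi.smul_apply, ha.per]
    · simp only [Pi.smul_apply, ha.odd, smul_neg]
    · simp only [Pi.smul_apply, ← Finset.smul_sum, ha.dist n hn]
    · simp only [Pi.smul_apply, ha' z hz, smul_zero]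

/-- selection -/
lemma select (V : Submodule ℂ (ℚ → ℂ)) (A : Finset ℚ) {ι : Type} [Fintype ι] (Λ : ι → ((ℚ → ℂ) →ₗ[ℂ] ℂ))
    (h : ∀ v ∈ V, (∀ i, Λ i v = 0) → ∀ a ∈ A, v a = 0) :
    ∃ T : Finset ℚ, T ⊆ A ∧ T.card ≤ Fintype.card ι ∧ ∀ v ∈ V, (∀ t ∈ T, v t = 0) → ∀ a ∈ A, v a = 0 := by
  classical
  obtain ⟨ev, hev⟩ : ∃ ev : ℚ → (V →ₗ[ℂ] ℂ), ev = fun a => (LinearMap.proj a).comp V.subtype := ⟨_, rfl⟩
  have hev' : ∀ a (v : V), ev a v = (v : ℚ → ℂ) a := by
    intro a v
    rw [hev]
    rfl
  obtain ⟨M, hM⟩ : ∃ M : ι → (V →ₗ[ℂ] ℂ), M = fun i => (Λ i).comp V.subtype := ⟨_, rfl⟩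
  have hM' : ∀ i (v : V), M i v = Λ i (v : ℚ → ℂ) := by
    intro i v
    rw [hM]
    rfl
  have hspan : ∀ a ∈ A, ev a ∈ Submodule.span ℂ (Set.range M) := by
    intro a ha
    refine mem_span_of_iInf_ker_le_ker ?_
    intro v hv
    rw [Submodule.mem_iInf] at hv
    rw [LinearMap.mem_ker, hev']
    refine h v v.2 (fun i => ?_) a ha
    have := hv i
    rw [LinearMap.mem_ker, hM'] at this
    exact this
  obtain ⟨b, hb1, hb2, hb3⟩ := exists_linearIndependent ℂ (ev '' (A : Set ℚ))
  have hfin : (ev '' (A : Set ℚ)).Finite := A.finite_toSet.image _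
  have hbfin : b.Finite := hfin.subset hb1
  have : Fintype b := hbfin.fintype
  have hcard : Fintype.card b ≤ Fintype.card ι := by
    have h1 : Submodule.span ℂ b ≤ Submodule.span ℂ (Set.range M) := by
      rw [hb2, Submodule.span_le]
      rintro _ ⟨a, ha, rfl⟩
      exact hspan a ha
    have : FiniteDimensional ℂ (Submodule.span ℂ (Set.range M)) :=
      FiniteDimensional.span_of_finite ℂ (Set.finite_range M)
    have h2 := Submodule.finrank_mono h1
    have h3 : Module.finrank ℂ (Submodule.span ℂ b) = Fintype.card b := by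
      have := finrank_span_eq_card hb3
      rwa [Subtype.range_coe] at this
    have h4 : Module.finrank ℂ (Submodule.span ℂ (Set.range M)) ≤ Fintype.card ι := finrank_range_le_card M
    omega
  have hch : ∀ x : b, ∃ a ∈ A, ev a = x := by
    intro x
    obtain ⟨a, ha, hax⟩ := hb1 x.2
    exact ⟨a, ha, hax⟩
  choose c hcA hcx using hch
  refine ⟨Finset.univ.image c, ?_, ?_, ?_⟩
  · intro t ht
    rw [mem_image] at ht
    obtain ⟨x, _, rfl⟩ := ht
    exact hcA x
  · exact (Finset.card_image_le).trans hcard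
  · intro v hv hvt a ha
    have h1 : ev a ∈ Submodule.span ℂ b := by
      rw [hb2]
      exact Submodule.subset_span ⟨a, ha, rfl⟩
    have h2 : ∀ f ∈ Submodule.span ℂ b, f ⟨v, hv⟩ = 0 := by
      intro f hf
      induction hf using Submodule.span_induction with
      | mem x hx =>
        have h3 := hcx ⟨x, hx⟩
        simp only at h3
        rw [← h3, hev']
        exact hvt _ (mem_image.mpr ⟨⟨x, hx⟩, Finset.mem_univ _, rfl⟩)
      | zero => rfl
      | add x y _ _ hx hy => rw [LinearMap.add_apply, hx, hy, add_zero]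
      | smul r x _ hx => rw [LinearMap.smul_apply, hx, smul_zero]
    have h3 := h2 _ h1
    rw [hev'] at h3
    exact h3

/-- the Fourier coefficient as a linear map -/
noncomputable def HL (d : ℕ) (ψ : DirichletCharacter ℂ d) : (ℚ → ℂ) →ₗ[ℂ] ℂ where
  toFun v := HH v d ψ
  map_add' := by
    intro v w
    unfold HH
    rw [← Finset.sum_add_distrib]
    refine Finset.sum_congr rfl fun a _ => ?_
    rw [Pi.add_apply]
    ring
  map_smul' := by
    intro c v
    unfold HH
    rw [RingHom.id_apply, Finset.smul_sum]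
    refine Finset.sum_congr rfl fun a _ => ?_
    rw [Pi.smul_apply, smul_eq_mul, smul_eq_mul]
    ring

/-- the number of odd characters -/
lemma card_odd {q : ℕ} (hq : 2 < q) : 2 * Nat.card {χ : DirichletCharacter ℂ q // χ.Odd} = Nat.totient q := by
  classical
  have : NeZero q := ⟨by omega⟩
  have : Fact (2 < q) := ⟨hq⟩
  have hne : (-1 : ZMod q) ≠ 1 := ZMod.neg_one_ne_one
  have h1 := sum_characters_eq_zero ℂ hne
  have h2 : ∀ χ : DirichletCharacter ℂ q, χ (-1) = if χ.Odd then (-1 : ℂ) else 1 := by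
    intro χ
    split_ifs with h
    · exact h
    · rcases χ.even_or_odd with h3 | h3
      · exact h3
      · exact absurd h3 h
  simp_rw [h2] at h1
  rw [Finset.sum_ite, Finset.sum_const, Finset.sum_const, nsmul_eq_mul, nsmul_eq_mul, mul_one, mul_neg, mul_one] at h1
  have h3 : ((univ : Finset (DirichletCharacter ℂ q)).filter fun χ => ¬ χ.Odd).card =
      ((univ : Finset (DirichletCharacter ℂ q)).filter fun χ => χ.Odd).card := by
    have h4 : (((univ : Finset (DirichletCharacter ℂ q)).filter fun χ => ¬ χ.Odd).card : ℂ) =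
      (((univ : Finset (DirichletCharacter ℂ q)).filter fun χ => χ.Odd).card : ℂ) := by
      linear_combination h1
    exact_mod_cast h4
  have h5 := Finset.card_filter_add_card_filter_not (s := (univ : Finset (DirichletCharacter ℂ q))) (fun χ => χ.Odd)
  have h6 := card_eq_totient_of_hasEnoughRootsOfUnity ℂ q
  rw [Nat.card_eq_fintype_card, ← Finset.card_univ] at h6
  rw [Nat.card_eq_fintype_card, Fintype.card_subtype]
  omega

end Pool.Agent.D0H21.LR
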